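import Mathlib

-- merged part: Pool.Agent.Work.MP_f66739_al.Basic
section
set_option autoImplicit false

namespace Pool.Agent.Work.MP_f66739_al

open Subgroup

/-- The word problem of the presentation with generators `α` and relators `R` is unsolvable. -/
def Unsolv {α : Type} [Primcodable α] (R : Set (FreeGroup α)) : Prop :=
  ¬ ComputablePred (fun w : List (α × Bool) => FreeGroup.mk w ∈ normalClosure R)

theorem Unsolv.of_reduction {ι β : Type} [Primcodable ι] [Primcodable β] {P : ι → Prop}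
    (hP : ¬ ComputablePred P) (R : Set (FreeGroup β)) (Φ : ι → List (β × Bool))
    (hΦ : Computable Φ) (h : ∀ i, P i ↔ FreeGroup.mk (Φ i) ∈ normalClosure R) : Unsolv R :=
  fun hc => hP (ComputablePred.computable_of_manyOneReducible ⟨Φ, hΦ, h⟩ hc)

/-- A family of free group elements is computable if it has a computable family of words. -/
def CompFam {ι β : Type} [Primcodable ι] [Primcodable β] (F : ι → FreeGroup β) : Prop :=
  ∃ Φ : ι → List (β × Bool), Computable Φ ∧ ∀ i, FreeGroup.mk (Φ i) = F i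

section CompFam
variable {ι β : Type} [Primcodable ι] [Primcodable β]

theorem CompFam.const (x : FreeGroup β) : CompFam (fun _ : ι => x) := by
  classical
  exact ⟨fun _ => x.toWord, Computable.const _, fun _ => FreeGroup.mk_toWord⟩

theorem CompFam.mul {F G : ι → FreeGroup β} (hF : CompFam F) (hG : CompFam G) :
    CompFam (fun i => F i * G i) := by
  obtain ⟨Φ, h1, h2⟩ := hF
  obtain ⟨Ψ, h3, h4⟩ := hG
  exact ⟨fun i => Φ i ++ Ψ i, Computable.list_append.comp h1 h3, fun i => by
    beta_reduce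
    rw [← h2, ← h4, FreeGroup.mul_mk]⟩

theorem primrec_invRev : Primrec (FreeGroup.invRev : List (β × Bool) → List (β × Bool)) := by
  have h : Primrec (fun w : List (β × Bool) => (w.map (fun g : β × Bool => (g.1, !g.2))).reverse) :=
    Primrec.list_reverse.comp (Primrec.list_map Primrec.id
      ((Primrec.fst.comp Primrec.snd).pair (Primrec.not.comp (Primrec.snd.comp Primrec.snd))).to₂)
  exact h.of_eq (fun w => rfl)

theorem CompFam.inv {F : ι → FreeGroup β} (hF : CompFam F) : CompFam (fun i => (F i)⁻¹) := by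
  obtain ⟨Φ, h1, h2⟩ := hF
  exact ⟨fun i => FreeGroup.invRev (Φ i), primrec_invRev.to_comp.comp h1, fun i => by
    beta_reduce
    rw [← h2, FreeGroup.inv_mk]⟩

theorem CompFam.lift {α : Type} [Primcodable α] [Finite α] (σ : α → FreeGroup β) :
    CompFam (fun w : List (α × Bool) => FreeGroup.lift σ (FreeGroup.mk w)) := by
  classical
  refine ⟨fun w => w.flatMap (fun p : α × Bool =>
    (cond p.2 (σ p.1) (σ p.1)⁻¹).toWord), ?_, ?_⟩
  · exact (Primrec.list_flatMap Primrec.id
      ((Primrec.dom_finite (fun p : α × Bool => (cond p.2 (σ p.1) (σ p.1)⁻¹).toWord)).comp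
        Primrec.snd).to₂).to_comp
  · intro w
    beta_reduce
    induction w with
    | nil => simp [FreeGroup.one_eq_mk]
    | cons p w ih =>
      rw [List.flatMap_cons, ← FreeGroup.mul_mk, ih, FreeGroup.mk_toWord]
      simp [FreeGroup.lift_mk]

theorem CompFam.pow (x : β) {E : ι → ℕ} (hE : Computable E) :
    CompFam (fun i => (FreeGroup.of x) ^ (E i)) := by
  have h : Primrec (fun n : ℕ => (List.range n).map (fun _ => (x, true))) :=
    Primrec.list_map Primrec.list_range (Primrec.const _).to₂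
  refine ⟨fun i => (List.range (E i)).map (fun _ => (x, true)), h.to_comp.comp hE, fun i => ?_⟩
  beta_reduce
  generalize E i = n
  induction n with
  | zero => simp [FreeGroup.one_eq_mk]
  | succ n ih =>
    rw [List.range_succ, List.map_append, ← FreeGroup.mul_mk, ih, pow_succ]
    rfl

theorem Unsolv.of_fam {P : ι → Prop} (hP : ¬ ComputablePred P) (R : Set (FreeGroup β))
    {F : ι → FreeGroup β} (hF : CompFam F) (h : ∀ i, P i ↔ F i ∈ normalClosure R) :
    Unsolv R := by
  obtain ⟨Φ, h1, h2⟩ := hF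
  exact Unsolv.of_reduction hP R Φ h1 (fun i => by rw [h2]; exact h i)

end CompFam

/-- Membership in a normal closure from a derivation valid in the presented group. -/
theorem mem_normalClosure_iff {α : Type} (R : Set (FreeGroup α)) (w : FreeGroup α) :
    w ∈ normalClosure R ↔ PresentedGroup.mk R w = 1 := by
  rw [PresentedGroup.mk_eq_one_iff]

theorem map_eq_one_of_mem {α G : Type} [Group G] {R : Set (FreeGroup α)}
    (φ : FreeGroup α →* G) (h : ∀ r ∈ R, φ r = 1) {w : FreeGroup α}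
    (hw : w ∈ normalClosure R) : φ w = 1 :=
  (normalClosure_le_normal (N := φ.ker) (fun r hr => h r hr)) hw

/-- The unrestricted permutational wreath product. -/
abbrev Wr (Ω H : Type) [Group H] : Type :=
  (Ω → H) ⋊[mulAutArrow] (Equiv.Perm Ω)

section Wr
variable {Ω H : Type} [Group H]

/-- The base group of the wreath product. -/
def fib : (Ω → H) →* Wr Ω H := SemidirectProduct.inl

/-- The top group of the wreath product. -/
def top : Equiv.Perm Ω →* Wr Ω H := SemidirectProduct.inr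

theorem fib_injective : Function.Injective (fib : (Ω → H) → Wr Ω H) :=
  SemidirectProduct.inl_injective

theorem top_conj (π : Equiv.Perm Ω) (F : Ω → H) :
    top π * fib F * (top π)⁻¹ = (fib (fun ω => F (π.symm ω)) : Wr Ω H) := by
  rw [← map_inv]
  exact (SemidirectProduct.inl_aut π F).symm

theorem top_inv_conj (π : Equiv.Perm Ω) (F : Ω → H) :
    (top π)⁻¹ * fib F * top π = (fib (fun ω => F (π ω)) : Wr Ω H) := by
  have := top_conj π⁻¹ F
  rw [map_inv, inv_inv] at this
  exact this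

end Wr

end Pool.Agent.Work.MP_f66739_al
end

-- merged part: Pool.Agent.Work.MP_f66739_al.Four
section
set_option autoImplicit false

namespace Pool.Agent.Work.MP_f66739_al

open Subgroup Function

/-- The commutator `a⁻¹ b⁻¹ a b`. -/
def cm {G : Type} [Group G] (a b : G) : G := a⁻¹ * b⁻¹ * a * b

/-- The words `[[X, Y ^ (j + 1)], Z]`. -/
def uw {G : Type} [Group G] (X Y Z : G) (j : ℕ) : G := cm (cm X (Y ^ (j + 1))) Z

section words
variable {G G' : Type} [Group G] [Group G']

theorem map_cm (φ : G →* G') (a b : G) : φ (cm a b) = cm (φ a) (φ b) := by simp [cm]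

theorem map_uw (φ : G →* G') (X Y Z : G) (j : ℕ) :
    φ (uw X Y Z j) = uw (φ X) (φ Y) (φ Z) j := by simp [uw, map_cm]

theorem cm_eq_one {a b : G} : cm a b = 1 ↔ Commute a b := by
  unfold cm
  rw [commute_iff_eq]
  constructor
  · intro h
    calc a * b = b * a * (a⁻¹ * b⁻¹ * a * b) := by group
      _ = b * a := by rw [h, mul_one]
  · intro h
    calc a⁻¹ * b⁻¹ * a * b = a⁻¹ * b⁻¹ * (a * b) := by group
      _ = 1 := by rw [h]; group

theorem uw_one_left (Y Z : G) (j : ℕ) : uw 1 Y Z j = 1 := by simp [uw, cm]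
theorem uw_one_mid (X Z : G) (j : ℕ) : uw X 1 Z j = 1 := by simp [uw, cm]
theorem uw_one_right (X Y : G) (j : ℕ) : uw X Y 1 j = 1 := by
  rw [uw, cm_eq_one]; exact Commute.one_right _
theorem uw_same (X Z : G) (j : ℕ) : uw X X Z j = 1 := by
  have : cm X (X ^ (j + 1)) = 1 := cm_eq_one.2 (Commute.pow_right (Commute.refl X) _)
  rw [uw, this]
  simp [cm]

/-- Evaluation of a word at the elements `uw X Y Z j`. -/
def ev {m : ℕ} (X Y Z : G) : FreeGroup (Fin m) →* G := FreeGroup.lift (fun j => uw X Y Z j)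

theorem map_ev {m : ℕ} (φ : G →* G') (X Y Z : G) (w : FreeGroup (Fin m)) :
    φ (ev X Y Z w) = ev (φ X) (φ Y) (φ Z) w := by
  have : φ.comp (ev X Y Z) = (ev (φ X) (φ Y) (φ Z) : FreeGroup (Fin m) →* G') := by
    ext j
    simp [ev, map_uw]
  exact DFunLike.congr_fun this w

theorem ev_eq_one {m : ℕ} {X Y Z : G} (h : ∀ j, uw X Y Z j = 1) (w : FreeGroup (Fin m)) :
    ev X Y Z w = 1 := by
  have : (ev X Y Z : FreeGroup (Fin m) →* G) = 1 := by
    ext j
    simp [ev, h]
  rw [this]; rfl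

theorem ev_mem {m : ℕ} (M : Subgroup G) {X Y Z : G} (hX : X ∈ M) (hY : Y ∈ M) (hZ : Z ∈ M)
    (w : FreeGroup (Fin m)) : ev X Y Z w ∈ M := by
  have := map_ev M.subtype ⟨X, hX⟩ ⟨Y, hY⟩ ⟨Z, hZ⟩ w
  simp only [Subgroup.coe_subtype] at this
  rw [← this]
  exact Subtype.property _

theorem ev_commute {m : ℕ} {b X Y Z : G} (hX : Commute b X) (hY : Commute b Y)
    (hZ : Commute b Z) (w : FreeGroup (Fin m)) : Commute b (ev X Y Z w) := by
  have := ev_mem (centralizer {b}) (X := X) (Y := Y) (Z := Z)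
    (mem_centralizer_singleton_iff.2 hX.symm) (mem_centralizer_singleton_iff.2 hY.symm)
    (mem_centralizer_singleton_iff.2 hZ.symm) w
  exact (mem_centralizer_singleton_iff.1 this).symm

end words

/-- Every group with chosen elements sits in a group where these elements are the words `uw`. -/
theorem exists_brunnian {G : Type} [Group G] {m : ℕ} (g : Fin m → G) :
    ∃ (G' : Type) (_ : Group G') (s t z : G') (ι : G →* G'),
      (∀ j : Fin m, uw s t z j = ι (g j)) ∧ ∀ w, Commute (ι w) t → w = 1 := by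
  classical
  let gh : ℤ → G := fun l => if h : 1 ≤ l ∧ l ≤ m then g ⟨(l - 1).toNat, by omega⟩ else 1
  let T : Equiv.Perm (ℤ × ℤ) := Equiv.prodCongr (Equiv.refl ℤ) (Equiv.addRight 1)
  let Zp : Equiv.Perm (ℤ × ℤ) :=
    { toFun := fun p => (if p.2 = 0 then p.1 + 1 else p.1, p.2)
      invFun := fun p => (if p.2 = 0 then p.1 - 1 else p.1, p.2)
      left_inv := by rintro ⟨a, b⟩; by_cases hb : b = 0 <;> simp [hb]
      right_inv := by rintro ⟨a, b⟩; by_cases hb : b = 0 <;> simp [hb] }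
  have hT : ∀ (j : ℕ) (p : ℤ × ℤ), (T ^ j) p = (p.1, p.2 + j) := by
    intro j
    induction j with
    | zero => intro p; simp
    | succ j ih =>
      intro p
      rw [pow_succ, Equiv.Perm.mul_apply, ih]
      simp [T, add_comm, add_left_comm]
  have hcm : ∀ (F : ℤ × ℤ → G) (π : Equiv.Perm (ℤ × ℤ)),
      cm (fib F : Wr (ℤ × ℤ) G) (top π) = fib (fun p => (F p)⁻¹ * F (π p)) := by
    intro F π
    rw [cm, mul_assoc, mul_assoc, ← mul_assoc (top π)⁻¹, top_inv_conj, ← map_inv, ← map_mul]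
    rfl
  refine ⟨Wr (ℤ × ℤ) G, inferInstance, fib (fun p => if 0 ≤ p.1 then gh p.2 else 1), top T, top Zp,
    fib.comp (MonoidHom.mulSingle (fun _ => G) ((-1, 0) : ℤ × ℤ)), fun j => ?_, fun w hw => ?_⟩
  · rw [uw, ← map_pow, hcm, hcm]
    simp only [MonoidHom.comp_apply, MonoidHom.mulSingle_apply]
    congr 1
    funext ⟨a, b⟩
    have hj := j.2
    have h0 : gh 0 = 1 := by simp [gh]
    have h1 : gh ((j : ℕ) + 1) = g j := by
      simp only [gh]
      rw [dif_pos (by omega)]
      congr 1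
      ext
      simp
    by_cases hb : b = 0
    · subst hb
      simp only [hT, Zp, Equiv.coe_fn_mk, if_true, h0, ite_self, inv_one, one_mul, zero_add]
      push_cast
      rw [h1]
      by_cases ha : a = -1
      · subst ha; simp
      · have : ((a, 0) : ℤ × ℤ) ≠ (-1, 0) := by simp [ha]
        rw [Pi.mulSingle_eq_of_ne this]
        by_cases h2 : 0 ≤ a
        · rw [if_pos h2, if_pos (by omega)]; simp
        · rw [if_neg h2, if_neg (by omega)]; simp
    · have : ((a, b) : ℤ × ℤ) ≠ (-1, 0) := by simp [hb]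
      rw [Pi.mulSingle_eq_of_ne this]
      simp only [Zp, Equiv.coe_fn_mk, if_neg hb, inv_mul_cancel]
  · rw [← cm_eq_one, MonoidHom.comp_apply, hcm, ← map_one fib] at hw
    have := congrFun (fib_injective hw) (-1, 0)
    simpa [T] using this

/-- The conjugates of `a` by the powers of `y`. -/
def cj {G : Type} [Group G] (a y : G) (i : ℤ) : G := (y ^ i)⁻¹ * a * y ^ i

/-- The information word. -/
def vw {G : Type} [Group G] {m l : ℕ} (ρ : Fin l → FreeGroup (Fin m)) (J : Fin l → Fin 3 → ℤ)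
    (a y : G) : G :=
  (List.ofFn (fun c : Fin l => ev (cj a y (J c 0)) (cj a y (J c 1)) (cj a y (J c 2)) (ρ c))).prod

theorem map_cj {G G' : Type} [Group G] [Group G'] (φ : G →* G') (a y : G) (i : ℤ) :
    φ (cj a y i) = cj (φ a) (φ y) i := by simp [cj]

theorem map_vw {G G' : Type} [Group G] [Group G'] (φ : G →* G') {m l : ℕ}
    (ρ : Fin l → FreeGroup (Fin m)) (J : Fin l → Fin 3 → ℤ) (a y : G) :
    φ (vw ρ J a y) = vw ρ J (φ a) (φ y) := by
  simp only [vw, map_list_prod, List.map_ofFn, Function.comp_def, map_ev, map_cj]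

theorem commute_of_prod {G : Type} [Group G] (b : G) : ∀ {l : ℕ} (V : Fin l → G) (c : Fin l),
    Commute b (List.ofFn V).prod → (∀ c', c' ≠ c → Commute b (V c')) → Commute b (V c) := by
  intro l
  induction l with
  | zero => intro V c; exact c.elim0
  | succ l ih =>
    intro V c h1 h2
    rw [List.ofFn_succ, List.prod_cons] at h1
    refine Fin.cases (motive := fun c => (∀ c', c' ≠ c → Commute b (V c')) → Commute b (V c))
      (fun h2 => ?_) (fun c h2 => ?_) c h2
    · have h3 : Commute b (List.ofFn fun i : Fin l => V i.succ).prod := by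
        apply Commute.list_prod_right
        intro x hx
        rw [List.mem_ofFn] at hx
        obtain ⟨i, rfl⟩ := hx
        exact h2 _ (Fin.succ_ne_zero i)
      simpa using h1.mul_right h3.inv_right
    · have h3 : Commute b (V 0) := h2 _ (Fin.succ_ne_zero c).symm
      apply ih (fun i => V i.succ) c
      · simpa using h3.inv_right.mul_right h1
      · intro c' hc'
        exact h2 _ (fun h => hc' (Fin.succ_injective _ h))

section Derivation
variable {G : Type} [Group G] {a y h : G} {p g : ℕ} {m l : ℕ}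

theorem cj_add (a y : G) (i j : ℤ) : cj a y (i + j) = (y ^ j)⁻¹ * cj a y i * y ^ j := by
  simp only [cj, zpow_add]; group

theorem derive (hg : ∀ i : ℤ, ¬ (p : ℤ) ∣ i → ∃ j : ℕ, ((p : ℤ) ^ 2) ∣ (g : ℤ) ^ j - i)
    (hl : l < p) (ρ : Fin l → FreeGroup (Fin m)) (J : Fin l → Fin 3 → ℕ)
    (hJ : ∀ c τ, ((p : ℤ) ^ 2) ∣ (g : ℤ) ^ J c τ - ((c : ℕ) + 1 + p * (![0, 1, 3] τ : ℤ)))
    (h1 : h⁻¹ * y * h = y ^ g) (h2 : Commute a h) (h3 : Commute a (y⁻¹ * a * y))
    (h4 : y ^ (p ^ 2) = vw ρ (fun c τ => (g : ℤ) ^ J c τ) a y)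
    {w : FreeGroup (Fin m)} (hw : w ∈ normalClosure (Set.range ρ)) :
    Commute (ev (cj a y 0) (cj a y p) (cj a y (3 * p)) w) (cj a y p) := by
  have hh : ∀ i : ℤ, h⁻¹ * cj a y i * h = cj a y (g * i) := by
    intro i
    have e1 : h⁻¹ * a * h = a := by rw [mul_assoc, h2.eq]; group
    have e2 : h⁻¹ * y ^ i * h = y ^ (g * i) := by
      rw [zpow_mul, zpow_natCast, ← h1]
      have := @conj_zpow G _ i h⁻¹ y
      rw [inv_inv] at this
      exact this.symm
    simp only [cj]
    rw [← e2]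
    conv_rhs => rw [← e1]
    group
  have h0 : cj a y 0 = a := by simp [cj]
  have hpow : ∀ j : ℕ, Commute a (cj a y ((g : ℤ) ^ j)) := by
    intro j
    induction j with
    | zero => simpa [cj] using h3
    | succ j ih =>
      rw [pow_succ', ← hh]
      have e1 : h⁻¹ * a * h = a := by rw [mul_assoc, h2.eq]; group
      have := ih.map (MulAut.conj h⁻¹).toMonoidHom
      simpa [e1] using this
  have hav : Commute a (y ^ (p ^ 2)) := by
    rw [h4, vw]
    apply Commute.list_prod_right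
    intro x hx
    rw [List.mem_ofFn] at hx
    obtain ⟨c, rfl⟩ := hx
    exact ev_commute (hpow _) (hpow _) (hpow _) _
  have hper : ∀ i j : ℤ, ((p : ℤ) ^ 2) ∣ i - j → cj a y i = cj a y j := by
    rintro i j ⟨n, hn⟩
    have : i = (p : ℤ) ^ 2 * n + j := by linear_combination hn
    rw [this, cj_add]
    have e : cj a y ((p : ℤ) ^ 2 * n) = a := by
      have h5 : Commute a (y ^ ((p : ℤ) ^ 2 * n)) := by
        rw [zpow_mul]
        apply Commute.zpow_right
        rw [← Nat.cast_pow, zpow_natCast]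
        exact hav
      rw [cj, mul_assoc, h5.eq]; group
    rw [e]; rfl
  have hcomm : ∀ i j : ℤ, ¬ (p : ℤ) ∣ j - i → Commute (cj a y i) (cj a y j) := by
    intro i j hij
    obtain ⟨n, hn⟩ := hg _ hij
    have e1 := hpow n
    rw [hper _ _ hn] at e1
    have e2 := e1.map (MulAut.conj (y ^ i)⁻¹).toMonoidHom
    simp only [MulEquiv.coe_toMonoidHom, MulAut.conj_apply, inv_inv] at e2
    rw [← cj_add, sub_add_cancel] at e2
    exact e2
  have hv : ∀ i, Commute (cj a y i) (y ^ (p ^ 2)) := by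
    intro i
    have e : Commute (y ^ i) (y ^ (p ^ 2)) := (Commute.refl y).zpow_left _ |>.pow_right _
    exact (e.inv_left.mul_left hav).mul_left e
  -- each relator becomes central
  have hcent : ∀ (c : Fin l) (k : ℤ),
      Commute (cj a y (p * k)) (ev (cj a y 0) (cj a y p) (cj a y (3 * p)) (ρ c)) := by
    intro c k
    have e1 := hv ((c : ℕ) + 1 + p * k)
    rw [h4, vw] at e1
    have e2 := commute_of_prod _ _ c e1 (by
      intro c' hc'
      have key : ∀ τ, Commute (cj a y ((c : ℕ) + 1 + p * k)) (cj a y ((g : ℤ) ^ J c' τ)) := by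
        intro τ
        rw [hper _ _ (hJ c' τ)]
        apply hcomm
        intro hd
        have hd' : (p : ℤ) ∣ ((c' : ℕ) : ℤ) - (c : ℕ) := by
          generalize (![0, 1, 3] τ : ℤ) = n at hd
          have := hd.sub (dvd_mul_right (p : ℤ) (n - k))
          rwa [show ((c' : ℕ) : ℤ) + 1 + p * n - ((c : ℕ) + 1 + p * k) - p * (n - k) =
            ((c' : ℕ) : ℤ) - (c : ℕ) by ring] at this
        have h5 := c.2
        have h6 := c'.2
        have h7 := Int.eq_zero_of_dvd_of_natAbs_lt_natAbs hd' (by omega)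
        exact hc' (Fin.ext (by omega))
      exact ev_commute (key 0) (key 1) (key 2) _)
    rw [hper _ _ (hJ c 0), hper _ _ (hJ c 1), hper _ _ (hJ c 2)] at e2
    have e3 := e2.map (MulAut.conj (y ^ (-(((c : ℕ) : ℤ) + 1)))⁻¹).toMonoidHom
    rw [map_ev] at e3
    simp only [MulEquiv.coe_toMonoidHom, MulAut.conj_apply, inv_inv, ← cj_add] at e3
    have e4 : ∀ n : ℤ, ((c : ℕ) : ℤ) + 1 + p * n + -(((c : ℕ) : ℤ) + 1) = p * n := by
      intro n; ring
    simp only [e4] at e3
    simpa [mul_comm] using e3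
  let M : Subgroup G := closure {cj a y 0, cj a y p, cj a y (3 * p)}
  have hM : ∀ u : FreeGroup (Fin m), ev (cj a y 0) (cj a y p) (cj a y (3 * p)) u ∈ M :=
    ev_mem M (subset_closure (by simp)) (subset_closure (by simp)) (subset_closure (by simp))
  let N : Subgroup (FreeGroup (Fin m)) :=
    (centralizer (M : Set G)).comap (ev (cj a y 0) (cj a y p) (cj a y (3 * p)))
  have hN : N.Normal := ⟨fun u hu x => by
    simp only [N, mem_comap, map_mul, map_inv] at hu ⊢
    rw [mem_centralizer_iff.1 hu _ (hM x)]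
    simpa using hu⟩
  have hle : normalClosure (Set.range ρ) ≤ N := by
    apply normalClosure_le_normal
    rintro _ ⟨c, rfl⟩
    simp only [N, SetLike.mem_coe, mem_comap, M]
    rw [centralizer_closure, mem_centralizer_iff]
    rintro x (rfl | rfl | rfl)
    · simpa using (hcent c 0).eq
    · simpa using (hcent c 1).eq
    · simpa [mul_comm] using (hcent c 3).eq
  exact (mem_centralizer_iff.1 (hle hw) _ (subset_closure (by simp))).symm

end Derivation

theorem exists_model4 {p g m l : ℕ} (hp : 10 ≤ p) (hgp : Nat.Coprime g (p ^ 2))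
    (ρ : Fin l → FreeGroup (Fin m)) (J : Fin l → Fin 3 → ℕ)
    (hJ : ∀ c τ, ((p : ℤ) ^ 2) ∣ (g : ℤ) ^ J c τ - ((c : ℕ) + 1 + p * (![0, 1, 3] τ : ℤ))) :
    ∃ (E : Type) (_ : Group E) (a y h : E), h⁻¹ * y * h = y ^ g ∧ Commute a h ∧
      Commute a (y⁻¹ * a * y) ∧ y ^ (p ^ 2) = vw ρ (fun c τ => (g : ℤ) ^ J c τ) a y ∧
      ∀ w : FreeGroup (Fin m),
        Commute (ev (cj a y 0) (cj a y p) (cj a y (3 * p)) w) (cj a y p) →
          w ∈ normalClosure (Set.range ρ) := by
  classical
  obtain ⟨G', _, s, t, z, ι, hι, hι'⟩ :=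
    exists_brunnian (fun j : Fin m => (PresentedGroup.of j : PresentedGroup (Set.range ρ)))
  have hev : ∀ w, ev s t z w = ι (PresentedGroup.mk (Set.range ρ) w) := by
    intro w
    have : (ev s t z : FreeGroup (Fin m) →* G') = ι.comp (PresentedGroup.mk (Set.range ρ)) := by
      ext j
      simp only [ev, FreeGroup.lift_apply_of, hι, MonoidHom.comp_apply]
      rfl
    rw [this]; rfl
  have hsmall : ∀ n : ℤ, n ≠ 0 → -9 ≤ n → n ≤ 9 → (p : ZMod (p ^ 2)) * n ≠ 0 := by
    intro n h0 h1 h2 h3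
    have h4 : ((p * n : ℤ) : ZMod (p ^ 2)) = 0 := by push_cast; exact h3
    rw [ZMod.intCast_zmod_eq_zero_iff_dvd] at h4
    push_cast at h4
    rw [pow_two] at h4
    have h5 : (p : ℤ) ∣ n := Int.dvd_of_mul_dvd_mul_left (by omega) h4
    exact h0 (Int.eq_zero_of_dvd_of_natAbs_lt_natAbs h5 (by omega))
  have hpp : (p : ZMod (p ^ 2)) * p = 0 := by
    rw [← Nat.cast_mul, ← pow_two, ZMod.natCast_self]
  let f : ZMod (p ^ 2) → G' := fun b =>
    if b = 0 then s else if b = p then t else if b = 3 * p then z else 1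
  have hp0 : (p : ZMod (p ^ 2)) ≠ 0 := by simpa using hsmall 1 (by decide) (by decide) (by decide)
  have hp3 : 3 * (p : ZMod (p ^ 2)) ≠ 0 := by
    simpa [mul_comm] using hsmall 3 (by decide) (by decide) (by decide)
  have hp2 : 3 * (p : ZMod (p ^ 2)) ≠ p := by
    intro h
    apply hsmall 2 (by decide) (by decide) (by decide)
    push_cast
    linear_combination h
  have f0 : f 0 = s := by simp [f]
  have f1 : f p = t := by simp [f, hp0]
  have f3 : f (3 * p) = z := by simp [f, hp3, hp2]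
  have hsupp : ∀ b, f b = 1 ∨ ∃ i : ℤ, (i = 0 ∨ i = 1 ∨ i = 3) ∧ b = p * i := by
    intro b
    simp only [f]
    split_ifs with h1 h2 h3
    · exact Or.inr ⟨0, by simp, by simp [h1]⟩
    · exact Or.inr ⟨1, by simp, by simp [h2]⟩
    · exact Or.inr ⟨3, by simp, by simp [h3, mul_comm]⟩
    · exact Or.inl rfl
  have hkey : ∀ (b δ : ZMod (p ^ 2)) (c : Fin l),
      ev (f b) (f (b + δ)) (f (b + 3 * δ)) (ρ c) = 1 := by
    intro b δ c
    rcases hsupp b with h1 | ⟨i, hi, h1⟩
    · rw [h1]; exact ev_eq_one (uw_one_left _ _) _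
    rcases hsupp (b + δ) with h2 | ⟨j, hj, h2⟩
    · rw [h2]; exact ev_eq_one (uw_one_mid _ _) _
    rcases hsupp (b + 3 * δ) with h3 | ⟨k, hk, h3⟩
    · rw [h3]; exact ev_eq_one (uw_one_right _ _) _
    have h4 : k - 3 * j + 2 * i = 0 := by
      by_contra h5
      apply hsmall _ h5 (by omega) (by omega)
      push_cast
      linear_combination 3 * h2 - h3 - 2 * h1
    by_cases hij : i = j
    · rw [h2, h1, hij]; exact ev_eq_one (uw_same _ _) _
    · obtain ⟨rfl, rfl, rfl⟩ : i = 0 ∧ j = 1 ∧ k = 3 := by omega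
      rw [h2, h3, h1]
      simp only [Int.cast_zero, mul_zero, Int.cast_one, mul_one, Int.cast_ofNat,
        mul_comm _ (3 : ZMod (p ^ 2)), f0, f1, f3, hev]
      rw [(mem_normalClosure_iff _ _).1 (subset_normalClosure (Set.mem_range_self c)), map_one]
  let γ : (ZMod (p ^ 2))ˣ := ZMod.unitOfCoprime g hgp
  let Y : Equiv.Perm ((ZMod (p ^ 2))ˣ × ZMod (p ^ 2)) :=
    Equiv.prodShear (Equiv.refl _) (fun μ => Equiv.addRight (μ : ZMod (p ^ 2)))
  let H : Equiv.Perm ((ZMod (p ^ 2))ˣ × ZMod (p ^ 2)) :=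
    Equiv.prodCongr (Equiv.mulRight γ) (Equiv.refl _)
  have hY : ∀ (i : ℤ) (q : (ZMod (p ^ 2))ˣ × ZMod (p ^ 2)), (Y ^ i) q = (q.1, q.2 + i * q.1) := by
    intro i
    induction i using Int.induction_on with
    | zero => intro q; simp
    | succ i ih =>
      intro q
      rw [zpow_add_one, Equiv.Perm.mul_apply, ih]
      simp only [Y, Equiv.prodShear_apply, Equiv.refl_apply, Equiv.coe_addRight]
      push_cast
      congr 1
      ring
    | pred i ih =>
      intro q
      rw [zpow_sub_one, Equiv.Perm.mul_apply, ih]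
      have : Y⁻¹ q = (q.1, q.2 - q.1) := by
        rw [Equiv.Perm.inv_eq_iff_eq]
        simp [Y]
      rw [this]
      push_cast
      congr 1
      ring
  have hcj : ∀ i : ℤ, cj (fib (fun q => f q.2) : Wr ((ZMod (p ^ 2))ˣ × ZMod (p ^ 2)) G') (top Y) i =
      fib (fun q => f (q.2 + i * q.1)) := by
    intro i
    rw [cj, ← map_zpow, top_inv_conj]
    simp only [hY]
  refine ⟨Wr ((ZMod (p ^ 2))ˣ × ZMod (p ^ 2)) G', inferInstance, fib (fun q => f q.2), top Y, top H,
    ?_, ?_, ?_, ?_, ?_⟩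
  · rw [← map_inv, ← map_mul, ← map_mul, ← map_pow, ← zpow_natCast]
    congr 1
    rw [mul_assoc, inv_mul_eq_iff_eq_mul]
    ext1 q
    rw [Equiv.Perm.mul_apply, Equiv.Perm.mul_apply, hY]
    simp [Y, H, γ, mul_comm]
  · rw [commute_iff_eq, ← inv_mul_eq_iff_eq_mul, ← mul_assoc, top_inv_conj]
    rfl
  · rw [top_inv_conj]
    apply Commute.map
    funext q
    simp only [Pi.mul_apply]
    rcases hsupp q.2 with h1 | ⟨i, -, h1⟩
    · rw [h1]; simp
    rcases hsupp (Y q).2 with h2 | ⟨j, -, h2⟩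
    · rw [h2]; simp
    exfalso
    simp only [Y, Equiv.prodShear_apply, Equiv.refl_apply, Equiv.coe_addRight] at h2
    apply hp0
    have h3 : (p : ZMod (p ^ 2)) * q.1 = 0 := by
      linear_combination (p : ZMod (p ^ 2)) * h2 - (p : ZMod (p ^ 2)) * h1 + (j - i) * hpp
    exact (Units.mul_left_eq_zero q.1).1 h3
  · have e1 : Y ^ (p ^ 2) = 1 := by
      ext1 q
      rw [← zpow_natCast, hY, Int.cast_natCast, ZMod.natCast_self]
      simp
    rw [← map_pow, e1, map_one, vw, eq_comm]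
    apply List.prod_eq_one
    intro x hx
    rw [List.mem_ofFn] at hx
    obtain ⟨c, rfl⟩ := hx
    rw [hcj, hcj, hcj, ← map_ev, ← map_one fib]
    congr 1
    funext q
    have e2 := map_ev (Pi.evalMonoidHom (fun _ => G') q)
      (fun q => f (q.2 + ((g : ℤ) ^ J c 0 : ℤ) * q.1))
      (fun q => f (q.2 + ((g : ℤ) ^ J c 1 : ℤ) * q.1))
      (fun q => f (q.2 + ((g : ℤ) ^ J c 2 : ℤ) * q.1)) (ρ c)
    simp only [Pi.evalMonoidHom_apply] at e2
    rw [e2]
    have e3 : ∀ τ, (((g : ℤ) ^ J c τ : ℤ) : ZMod (p ^ 2)) =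
        (((c : ℕ) + 1 + p * (![0, 1, 3] τ : ℤ) : ℤ) : ZMod (p ^ 2)) := by
      intro τ
      rw [eq_comm, ZMod.intCast_eq_intCast_iff_dvd_sub]
      push_cast
      exact_mod_cast hJ c τ
    rw [e3, e3, e3]
    have := hkey (q.2 + ((c : ℕ) + 1) * q.1) (p * q.1) c
    have e4 : ∀ n : ℤ, q.2 + ((((c : ℕ) : ℤ) + 1 + p * n : ℤ) : ZMod (p ^ 2)) * q.1 =
        q.2 + ((c : ℕ) + 1) * q.1 + n * (p * q.1) := by
      intro n; push_cast; ring
    simp only [e4]
    simpa using this
  · intro w hw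
    rw [hcj, hcj, hcj, ← map_ev] at hw
    have h1 := hw.eq
    rw [← map_mul, ← map_mul] at h1
    have h2 := congrFun (fib_injective h1) (1, 0)
    have e2 := map_ev (Pi.evalMonoidHom (fun _ => G') ((1, 0) : (ZMod (p ^ 2))ˣ × ZMod (p ^ 2)))
      (fun q => f (q.2 + ((0 : ℤ) : ZMod (p ^ 2)) * q.1))
      (fun q => f (q.2 + ((p : ℤ) : ZMod (p ^ 2)) * q.1))
      (fun q => f (q.2 + ((3 * p : ℤ) : ZMod (p ^ 2)) * q.1)) w
    simp only [Pi.evalMonoidHom_apply] at e2
    simp only [Pi.mul_apply] at h2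
    rw [e2] at h2
    simp only [Int.cast_zero, Units.val_one, mul_one, add_zero, zero_add, Int.cast_natCast,
      Int.cast_mul, Int.cast_ofNat, f0, f1, f3, hev] at h2
    exact (mem_normalClosure_iff _ _).2 (hι' _ h2)

/-- The four relators on the generators `a, y, h`. -/
def rel4 (p g : ℕ) (v : FreeGroup (Fin 3)) : Fin 4 → FreeGroup (Fin 3) :=
  ![(FreeGroup.of 2)⁻¹ * FreeGroup.of 1 * FreeGroup.of 2 * (FreeGroup.of 1 ^ g)⁻¹,
    cm (FreeGroup.of 0) (FreeGroup.of 2),
    cm (FreeGroup.of 0) ((FreeGroup.of 1)⁻¹ * FreeGroup.of 0 * FreeGroup.of 1),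
    FreeGroup.of 1 ^ (p ^ 2) * v⁻¹]

theorem four {p g m l : ℕ} (hp : 10 ≤ p) (hgp : Nat.Coprime g (p ^ 2))
    (hg : ∀ i : ℤ, ¬ (p : ℤ) ∣ i → ∃ j : ℕ, ((p : ℤ) ^ 2) ∣ (g : ℤ) ^ j - i)
    (hl : l < p) (ρ : Fin l → FreeGroup (Fin m)) (hρ : Unsolv (Set.range ρ)) :
    ∃ v, Unsolv (Set.range (rel4 p g v)) := by
  have hJ : ∀ (c : Fin l) (τ : Fin 3), ∃ j : ℕ,
      ((p : ℤ) ^ 2) ∣ (g : ℤ) ^ j - ((c : ℕ) + 1 + p * (![0, 1, 3] τ : ℤ)) := by
    intro c τ
    apply hg
    intro hd
    have h1 := (dvd_add_left (dvd_mul_right (p : ℤ) (![0, 1, 3] τ : ℤ))).1 hd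
    have h2 := c.2
    have := Int.eq_zero_of_dvd_of_natAbs_lt_natAbs h1 (by omega)
    omega
  choose J hJ using hJ
  let a : FreeGroup (Fin 3) := FreeGroup.of 0
  let y : FreeGroup (Fin 3) := FreeGroup.of 1
  let h : FreeGroup (Fin 3) := FreeGroup.of 2
  refine ⟨vw ρ (fun c τ => (g : ℤ) ^ J c τ) a y, ?_⟩
  have hfam : CompFam (fun w : List (Fin m × Bool) =>
      cm (ev (cj a y 0) (cj a y p) (cj a y (3 * p)) (FreeGroup.mk w)) (cj a y p)) := by
    have h1 : CompFam (fun w : List (Fin m × Bool) =>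
      (ev (cj a y 0) (cj a y p) (cj a y (3 * p)) (FreeGroup.mk w))) := CompFam.lift _
    exact ((h1.inv.mul (CompFam.const _)).mul h1).mul (CompFam.const _)
  refine Unsolv.of_fam hρ _ hfam (fun w => ⟨fun hw => ?_, fun hw => ?_⟩)
  · rw [mem_normalClosure_iff]
    set R := Set.range (rel4 p g (vw ρ (fun c τ => (g : ℤ) ^ J c τ) a y)) with hR
    have hr : ∀ i, PresentedGroup.mk R (rel4 p g (vw ρ (fun c τ => (g : ℤ) ^ J c τ) a y) i) = 1 :=
      fun i => (mem_normalClosure_iff _ _).1 (subset_normalClosure ⟨i, rfl⟩)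
    have r0 := hr 0
    have r1 := hr 1
    have r2 := hr 2
    have r3 := hr 3
    simp only [rel4, Matrix.cons_val, map_mul, map_inv, map_pow, map_cm, cm_eq_one,
      mul_inv_eq_one, map_vw] at r0 r1 r2 r3
    rw [map_cm, map_ev, map_cj, map_cj, map_cj, cm_eq_one]
    exact derive hg hl ρ J hJ r0 r1 r2 r3 hw
  · obtain ⟨E, _, a', y', h', r0, r1, r2, r3, hE⟩ := exists_model4 hp hgp ρ J hJ
    let φ : FreeGroup (Fin 3) →* E := FreeGroup.lift ![a', y', h']
    have ha : φ a = a' := by simp [φ, a]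
    have hy : φ y = y' := by simp [φ, y]
    have hh : φ h = h' := by simp [φ, h]
    have := map_eq_one_of_mem φ (by
      rintro _ ⟨i, rfl⟩
      fin_cases i
      · change φ (h⁻¹ * y * h * (y ^ g)⁻¹) = 1
        simp only [map_mul, map_inv, map_pow, hy, hh, r0, mul_inv_cancel]
      · change φ (cm a h) = 1
        rw [map_cm, ha, hh, cm_eq_one]; exact r1
      · change φ (cm a (y⁻¹ * a * y)) = 1
        rw [map_cm, map_mul, map_mul, map_inv, ha, hy, cm_eq_one]; exact r2
      · change φ (y ^ (p ^ 2) * (vw ρ (fun c τ => (g : ℤ) ^ J c τ) a y)⁻¹) = 1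
        rw [map_mul, map_inv, map_pow, map_vw, ha, hy, r3, mul_inv_cancel]) hw
    rw [map_cm, map_ev, map_cj, map_cj, map_cj, cm_eq_one, ha, hy] at this
    exact hE _ this

end Pool.Agent.Work.MP_f66739_al
end

-- merged part: Pool.Agent.Work.MP_f66739_al.H66Derive
section
set_option autoImplicit false
set_option linter.unusedSimpArgs false

namespace Pool.Agent.Work.MP_f66739_al

open Subgroup Function

section Defs
variable {G : Type} [Group G]

/-- The element `f = y a y⁻¹`. -/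
def fE (a y : G) : G := y * a * y⁻¹

/-- The element `g = y⁻¹ a⁻¹ y`. -/
def gE (a y : G) : G := y⁻¹ * a⁻¹ * y

/-- The element `π = g f² g f⁻² g⁻¹`. -/
def piE (f g : G) : G := g * f * f * g * f⁻¹ * f⁻¹ * g⁻¹

/-- Conjugation by a power of `g`. -/
def sh (g : G) (i : ℤ) : G →* G := (MulAut.conj (g ^ i)).toMonoidHom

/-- The elements `ε n = gⁿ (g² f g f⁻¹ g⁻²) g⁻ⁿ`. -/
def ep (f g : G) (n : ℤ) : G := sh g n (g * g * f * g * f⁻¹ * g⁻¹ * g⁻¹)

/-- The elements `πⁿ⁻¹ (ε 1) π¹⁻ⁿ`. -/
def es (f g : G) (n : ℤ) : G := sh (piE f g) (n - 1) (ep f g 1)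

/-- The long relator. -/
def relR (a y v : G) : G :=
  y * (gE a y * fE a y * fE a y * gE a y)⁻¹ * y * (v * (gE a y * gE a y * fE a y))⁻¹ * y *
    (gE a y * gE a y * gE a y * fE a y)⁻¹

/-- Evaluation of a word in two letters at `E (n+3) (E (n+4))⁻¹` and `E n (E (n+1))⁻¹`. -/
def part (E : ℤ → G) (n : ℤ) : FreeGroup (Fin 2) →* G :=
  FreeGroup.lift ![E (n + 3) * (E (n + 4))⁻¹, E n * (E (n + 1))⁻¹]

/-- The information word. -/
def info {l : ℕ} (r : Fin l → FreeGroup (Fin 2)) (E : ℤ → G) : G :=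
  (List.ofFn (fun c : Fin l => part E (6 + 28 * l + 7 * (c : ℕ)) (r c))).prod

/-- The subgroup generated by the `ε n` with `n ≥ k`. -/
def PP (f g : G) (k : ℤ) : Subgroup G := closure {x | ∃ n, k ≤ n ∧ x = ep f g n}

/-- The centralizer of `PP f g k`. -/
def CC (f g : G) (k : ℤ) : Subgroup G := centralizer (PP f g k : Set G)

theorem sh_apply (g : G) (i : ℤ) (u : G) : sh g i u = g ^ i * u * (g ^ i)⁻¹ := rfl

theorem sh_sh (g : G) (i k : ℤ) (u : G) : sh g i (sh g k u) = sh g (k + i) u := by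
  simp only [sh_apply, add_comm k i, zpow_add]; group

theorem sh_zero (g u : G) : sh g 0 u = u := by simp [sh_apply]

theorem sh_one (g u : G) : sh g 1 u = g * u * g⁻¹ := by simp [sh_apply]

theorem sh_ep (f g : G) (i n : ℤ) : sh g i (ep f g n) = ep f g (n + i) := sh_sh _ _ _ _

theorem ep_succ (f g : G) (n : ℤ) : ep f g (n + 1) = g * ep f g n * g⁻¹ := by
  rw [← sh_ep, sh_one]

variable {G' : Type} [Group G'] (φ : G →* G')

theorem map_fE (a y : G) : φ (fE a y) = fE (φ a) (φ y) := by simp [fE]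
theorem map_gE (a y : G) : φ (gE a y) = gE (φ a) (φ y) := by simp [gE]
theorem map_piE (f g : G) : φ (piE f g) = piE (φ f) (φ g) := by simp [piE]
theorem map_sh (g : G) (i : ℤ) (u : G) : φ (sh g i u) = sh (φ g) i (φ u) := by simp [sh_apply]
theorem map_ep (f g : G) (n : ℤ) : φ (ep f g n) = ep (φ f) (φ g) n := by simp [ep, map_sh]
theorem map_es (f g : G) (n : ℤ) : φ (es f g n) = es (φ f) (φ g) n := by
  simp [es, map_sh, map_ep, map_piE]
theorem map_relR (a y v : G) : φ (relR a y v) = relR (φ a) (φ y) (φ v) := by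
  simp [relR, map_fE, map_gE]

theorem map_part (E : ℤ → G) (n : ℤ) (w : FreeGroup (Fin 2)) :
    φ (part E n w) = part (fun k => φ (E k)) n w := by
  have : φ.comp (part E n) = part (fun k => φ (E k)) n := by
    ext i
    fin_cases i <;> simp [part]
  exact DFunLike.congr_fun this w

theorem map_info {l : ℕ} (r : Fin l → FreeGroup (Fin 2)) (E : ℤ → G) :
    φ (info r E) = info r (fun k => φ (E k)) := by
  simp only [info, map_list_prod, List.map_ofFn, Function.comp_def, map_part]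

theorem part_mem (M : Subgroup G) {E : ℤ → G} {n : ℤ} (h1 : E (n + 3) * (E (n + 4))⁻¹ ∈ M)
    (h2 : E n * (E (n + 1))⁻¹ ∈ M) (w : FreeGroup (Fin 2)) : part E n w ∈ M := by
  induction w using FreeGroup.induction_on with
  | C1 => simp
  | of i => fin_cases i <;> simpa [part]
  | inv_of i ih => rw [map_inv]; exact M.inv_mem ih
  | mul x y hx hy => rw [map_mul]; exact M.mul_mem hx hy

theorem info_mem (M : Subgroup G) {l : ℕ} (r : Fin l → FreeGroup (Fin 2)) {E : ℤ → G}
    (h : ∀ n : ℤ, 6 + 28 * l ≤ n → E n ∈ M) : info r E ∈ M := by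
  apply M.list_prod_mem
  intro x hx
  rw [List.mem_ofFn] at hx
  obtain ⟨c, rfl⟩ := hx
  exact part_mem M (M.mul_mem (h _ (by omega)) (M.inv_mem (h _ (by omega))))
    (M.mul_mem (h _ (by omega)) (M.inv_mem (h _ (by omega)))) _

theorem info_congr {l : ℕ} (r : Fin l → FreeGroup (Fin 2)) {E E' : ℤ → G}
    (h : ∀ n : ℤ, 1 ≤ n → E n = E' n) : info r E = info r E' := by
  simp only [info]
  congr 2
  funext c
  simp only [part]
  rw [h _ (by omega), h _ (by omega), h (6 + 28 * l + 7 * (c : ℕ)) (by omega), h _ (by omega)]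

theorem sh_part (f g : G) (i n : ℤ) (w : FreeGroup (Fin 2)) :
    sh g i (part (ep f g) n w) = part (ep f g) (n + i) w := by
  rw [map_part]
  simp only [part, sh_ep]
  rw [show n + 3 + i = n + i + 3 by ring, show n + 4 + i = n + i + 4 by ring,
    show n + 1 + i = n + i + 1 by ring]

variable {f g : G}

theorem ep_mem {k n : ℤ} (h : k ≤ n) : ep f g n ∈ PP f g k := subset_closure ⟨n, h, rfl⟩

theorem PP_mono {k k' : ℤ} (h : k ≤ k') : PP f g k' ≤ PP f g k :=
  closure_mono (fun _ ⟨n, h1, h2⟩ => ⟨n, h.trans h1, h2⟩)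

theorem CC_mono {k k' : ℤ} (h : k ≤ k') : CC f g k ≤ CC f g k' :=
  centralizer_le (PP_mono h)

theorem sh_mem_PP {k k' : ℤ} (i : ℤ) (hk : k' ≤ k + i) {u : G} (h : u ∈ PP f g k) :
    sh g i u ∈ PP f g k' := by
  have : PP f g k ≤ (PP f g k').comap (sh g i) := by
    rw [PP, closure_le]
    rintro _ ⟨n, h1, rfl⟩
    simp only [coe_comap, Set.mem_preimage, sh_ep, SetLike.mem_coe]
    exact ep_mem (by omega)
  exact this h

theorem mem_CC {k : ℤ} {u : G} (h : ∀ n, k ≤ n → Commute (ep f g n) u) : u ∈ CC f g k := by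
  rw [CC, PP, centralizer_closure, mem_centralizer_iff]
  rintro _ ⟨n, h1, rfl⟩
  exact h n h1

theorem comm_of_mem {k : ℤ} {u v : G} (hu : u ∈ CC f g k) (hv : v ∈ PP f g k) : Commute v u :=
  mem_centralizer_iff.1 hu v hv

theorem sh_mem_CC {k k' : ℤ} (i : ℤ) (hk : k + i ≤ k') {u : G} (h : u ∈ CC f g k) :
    sh g i u ∈ CC f g k' := by
  apply mem_CC
  intro n hn
  have := (comm_of_mem h (ep_mem (show k ≤ n - i by omega))).map (sh g i)
  rwa [sh_ep, sub_add_cancel] at this

theorem acts {x : G} {r : ℤ} (h : ∀ n, r ≤ n → x * ep f g n * x⁻¹ = ep f g (n + 1)) {u : G}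
    (hu : u ∈ PP f g r) : x * u * x⁻¹ = sh g 1 u := by
  have : PP f g r ≤ MonoidHom.eqLocus (MulAut.conj x).toMonoidHom (sh g 1) := by
    rw [PP, closure_le]
    rintro _ ⟨n, h1, rfl⟩
    change x * ep f g n * x⁻¹ = sh g 1 (ep f g n)
    rw [sh_ep, h n h1]
  exact this hu

end Defs

section Thompson
variable {G : Type} [Group G] {f g : G}

theorem pi_step {n : ℤ} (h0 : Commute f (ep f g n)) (h1 : Commute f (ep f g (n + 1))) :
    piE f g * ep f g (n + 1) * (piE f g)⁻¹ = ep f g (n + 1 + 1) := by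
  have e0 : f⁻¹ * f⁻¹ * ep f g n * f * f = ep f g n := by
    calc _ = f⁻¹ * (f⁻¹ * ep f g n * f) * f := by group
      _ = _ := by rw [h0.inv_mul_cancel, h0.inv_mul_cancel]
  have e1 : f * f * ep f g (n + 1) * f⁻¹ * f⁻¹ = ep f g (n + 1) := by
    calc _ = f * (f * ep f g (n + 1) * f⁻¹) * f⁻¹ := by group
      _ = _ := by rw [h1.mul_inv_cancel, h1.mul_inv_cancel]
  rw [ep_succ f g (n + 1)]
  conv_rhs => rw [← e1, ep_succ, ← e0]
  rw [ep_succ, piE]
  simp only [mul_assoc, mul_inv_rev, inv_inv, inv_mul_cancel_left, mul_inv_cancel_left]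

theorem comm_f_ep (hp : Commute f (piE f g)) (h0 : Commute f (ep f g 0))
    (h1 : Commute f (ep f g 1)) (n : ℤ) (hn : 0 ≤ n) : Commute f (ep f g n) := by
  have : ∀ m : ℕ, Commute f (ep f g m) ∧ Commute f (ep f g (m + 1)) := by
    intro m
    induction m with
    | zero => exact ⟨h0, h1⟩
    | succ m ih =>
      push_cast
      refine ⟨ih.2, ?_⟩
      rw [← pi_step ih.1 ih.2]
      exact (hp.mul_right ih.2).mul_right hp.inv_right
  obtain ⟨m, rfl⟩ := Int.eq_ofNat_of_zero_le hn
  exact (this m).1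

theorem pi_ep (H : ∀ n, 0 ≤ n → Commute f (ep f g n)) (n : ℤ) (hn : 1 ≤ n) :
    piE f g * ep f g n * (piE f g)⁻¹ = ep f g (n + 1) := by
  have := pi_step (H (n - 1) (by omega)) (H (n - 1 + 1) (by omega))
  rwa [sub_add_cancel] at this

theorem es_eq (H : ∀ n, 0 ≤ n → Commute f (ep f g n)) (n : ℤ) (hn : 1 ≤ n) :
    es f g n = ep f g n := by
  obtain ⟨m, rfl⟩ : ∃ m : ℕ, n = m + 1 := ⟨(n - 1).toNat, by omega⟩
  clear hn
  induction m with
  | zero => simp [es, sh_zero]
  | succ m ih =>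
    push_cast
    rw [← pi_ep H _ (by omega), ← ih, ← sh_one, es, es, sh_sh]
    congr 2
    ring

theorem ep_zero_ep (H : ∀ n, 0 ≤ n → Commute f (ep f g n)) (n : ℤ) (hn : 2 ≤ n) :
    ep f g 0 * ep f g n * (ep f g 0)⁻¹ = ep f g (n + 1) := by
  obtain ⟨m, rfl⟩ : ∃ m, n = m + 1 + 1 := ⟨n - 2, by ring⟩
  have e0 := (H m (by omega)).inv_mul_cancel
  have e1 := (H (m + 1) (by omega)).mul_inv_cancel
  rw [ep_succ f g (m + 1 + 1), ep_succ f g (m + 1)]
  conv_rhs => rw [← e1, ep_succ, ← e0]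
  rw [ep_succ f g m, ep, sh_zero]
  group

theorem ep_ep (H : ∀ n, 0 ≤ n → Commute f (ep f g n)) (i n : ℤ) (hn : i + 2 ≤ n) :
    ep f g i * ep f g n * (ep f g i)⁻¹ = ep f g (n + 1) := by
  have := congrArg (sh g i) (ep_zero_ep H (n - i) (by omega))
  simp only [map_mul, map_inv, sh_ep, zero_add, sub_add_cancel] at this
  rw [this]
  congr 1
  ring

theorem gen_mem_CC (H : ∀ n, 0 ≤ n → Commute f (ep f g n)) {i k : ℤ} (hk : i + 4 ≤ k) :
    ep f g i * (ep f g (i + 1))⁻¹ ∈ CC f g k := by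
  apply mem_CC
  intro n hn
  have e1 := ep_ep H i (n - 1) (by omega)
  have e2 := ep_ep H (i + 1) (n - 1) (by omega)
  rw [sub_add_cancel] at e1 e2
  rw [commute_iff_eq]
  conv_lhs => rw [← e1]
  conv_rhs => rw [← e2]
  group

theorem gen_mem_PP {i k : ℤ} (hk : k ≤ i) : ep f g i * (ep f g (i + 1))⁻¹ ∈ PP f g k :=
  mul_mem (ep_mem hk) (inv_mem (ep_mem (by omega)))

/-- The mirror relation. -/
theorem mirror (hp : Commute f (piE f g)) (h0 : Commute f (ep f g 0))
    (h1 : Commute f (ep f g 1)) {c0 c1 : G} (hc0 : c0 = f⁻¹ * g⁻¹ * g⁻¹ * f * g * g * f)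
    (hc1 : c1 = f⁻¹ * g⁻¹ * g⁻¹ * g⁻¹ * f * g * g * g * f) :
    Commute (c1 * c0⁻¹) (c0⁻¹ * c0⁻¹ * c1 * c0 * c0) := by
  set d0 := f⁻¹ * f⁻¹ * g⁻¹ * f * g * f * f with hd0
  have k0 : Commute g d0 := by
    rw [commute_iff_eq]
    calc g * d0 = f⁻¹ * f⁻¹ * g⁻¹ * (piE f g * f) * g * f * f := by rw [hd0, piE]; group
      _ = _ := by rw [← hp.eq, hd0, piE]; group
  have k1 : Commute g c0 := by
    rw [commute_iff_eq]
    calc g * c0 = f⁻¹ * g⁻¹ * g⁻¹ * (ep f g 0 * f) * g * g * f := by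
          rw [hc0, ep, sh_zero]; group
      _ = _ := by rw [← h0.eq, hc0, ep, sh_zero]; group
  have k2 : Commute g c1 := by
    rw [commute_iff_eq]
    calc g * c1 = f⁻¹ * g⁻¹ * g⁻¹ * g⁻¹ * (ep f g 1 * f) * g * g * g * f := by
          rw [hc1, ep, sh_one]; group
      _ = _ := by rw [← h1.eq, hc1, ep, sh_one]; group
  have a0 := k0.inv_mul_cancel
  have b0 := k0.mul_inv_cancel
  have e1 : c0⁻¹ * c0⁻¹ * c1 * c0 * c0 = f⁻¹ * d0 * f := by
    conv_rhs => rw [← a0, ← a0]
    rw [hc0, hc1, hd0]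
    group
  have k3 : Commute g (f⁻¹ * d0 * f) := by
    rw [← e1]
    exact (((k1.inv_right.mul_right k1.inv_right).mul_right k2).mul_right k1).mul_right k1
  have a1 := k3.inv_mul_cancel
  have e2 : c0⁻¹ * (f⁻¹ * d0 * f) * c0 = f⁻¹ * (f⁻¹ * d0 * f) * f := by
    calc _ = f⁻¹ * (g⁻¹ * (g⁻¹ * (f⁻¹ * (g * (g * d0 * g⁻¹) * g⁻¹) * f) * g) * g) * f := by
          rw [hc0]
          simp only [mul_assoc, mul_inv_rev, inv_inv, inv_mul_cancel_left, mul_inv_cancel_left]
      _ = _ := by rw [b0, b0, a1, a1]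
  have e3 : c1⁻¹ * (f⁻¹ * d0 * f) * c1 = f⁻¹ * (f⁻¹ * d0 * f) * f := by
    calc _ = f⁻¹ * (g⁻¹ * (g⁻¹ * (g⁻¹ * (f⁻¹ * (g * (g * (g * d0 * g⁻¹) * g⁻¹) * g⁻¹) * f) *
            g) * g) * g) * f := by
          rw [hc1]
          simp only [mul_assoc, mul_inv_rev, inv_inv, inv_mul_cancel_left, mul_inv_cancel_left]
      _ = _ := by rw [b0, b0, b0, a1, a1, a1]
  rw [e1, commute_iff_eq]
  calc c1 * c0⁻¹ * (f⁻¹ * d0 * f) = c1 * (c0⁻¹ * (f⁻¹ * d0 * f) * c0) * c0⁻¹ := by group
    _ = _ := by rw [e2, ← e3]; group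

theorem key_step (H : ∀ n, 0 ≤ n → Commute f (ep f g n)) {v : G} (hv : v ∈ PP f g 3)
    (hrel : Commute (v * (ep f g 0)⁻¹ * v⁻¹ * piE f g)
      (piE f g * piE f g * (v * (ep f g 0)⁻¹ * v⁻¹) * (piE f g)⁻¹ * (piE f g)⁻¹))
    {u : G} (hu : u ∈ PP f g 5) (h0 : Commute v u) (h1 : Commute (sh g 1 v) u)
    (h2 : Commute (sh g 2 v) u) (h3 : Commute (sh g 3 v) u) : Commute (sh g (-1) v) u := by
  set p := piE f g with hp
  set e := ep f g 0 with he
  have ap : ∀ {x}, x ∈ PP f g 1 → p * x * p⁻¹ = sh g 1 x := fun hx => acts (pi_ep H) hx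
  have ae : ∀ {x}, x ∈ PP f g 2 → e * x * e⁻¹ = sh g 1 x := fun hx => acts (ep_zero_ep H) hx
  have ak : ∀ {x}, x ∈ PP f g 2 → Commute (e⁻¹ * p) x := by
    intro x hx
    rw [commute_iff_eq]
    calc e⁻¹ * p * x = e⁻¹ * (p * x * p⁻¹) * p := by group
      _ = _ := by rw [ap (PP_mono (by omega) hx), ← ae hx]; group
  have pp : ∀ {x}, x ∈ PP f g 1 → p * p * x * p⁻¹ * p⁻¹ = sh g 2 x := by
    intro x hx
    calc _ = p * (p * x * p⁻¹) * p⁻¹ := by group
      _ = _ := by rw [ap hx, ap (sh_mem_PP 1 (by omega) hx), sh_sh]; rfl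
  have at' : ∀ {x}, x ∈ PP f g 4 →
      (p * p * e * p⁻¹ * p⁻¹) * x * (p * p * e * p⁻¹ * p⁻¹)⁻¹ = sh g 1 x := by
    intro x hx
    have hx' : sh g (-2) x ∈ PP f g 2 := sh_mem_PP (-2) (by omega) hx
    have e1 : x = p * p * sh g (-2) x * p⁻¹ * p⁻¹ := by
      rw [pp (PP_mono (by omega) hx'), sh_sh]; exact (sh_zero g x).symm
    calc _ = p * p * (e * sh g (-2) x * e⁻¹) * p⁻¹ * p⁻¹ := by
          conv_lhs => rw [e1]
          group
      _ = _ := by
          rw [ae hx', pp (sh_mem_PP 1 (by omega) hx'), sh_sh, sh_sh]; rfl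
  have hw : sh g (-1) v ∈ PP f g 2 := sh_mem_PP (-1) (by omega) hv
  have e1 : v = e * sh g (-1) v * e⁻¹ := by
    rw [ae hw, sh_sh]; exact (sh_zero g v).symm
  have c1 : v * e⁻¹ * v⁻¹ * p = v * (sh g (-1) v)⁻¹ * (e⁻¹ * p) := by
    generalize sh g (-1) v = w at e1
    rw [e1]
    group
  have e2 := pp (PP_mono (by omega) hv : v ∈ PP f g 1)
  have e3 := at' (sh_mem_PP 2 (by omega) hv : sh g 2 v ∈ PP f g 4)
  rw [sh_sh, show (2 : ℤ) + 1 = 3 from rfl] at e3
  have c2 : (p * p * (v * e⁻¹ * v⁻¹) * p⁻¹ * p⁻¹)⁻¹ =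
      sh g 2 v * (sh g 3 v)⁻¹ * (p * p * e * p⁻¹ * p⁻¹) := by
    rw [← e3, ← e2]
    simp only [mul_assoc, mul_inv_rev, inv_inv, inv_mul_cancel_left, mul_inv_cancel_left]
  have hu' : sh g (-1) u ∈ PP f g 4 := sh_mem_PP (-1) (by omega) hu
  have e4 := at' hu'
  rw [sh_sh, show (-1 : ℤ) + 1 = 0 from rfl, sh_zero] at e4
  have k1 : Commute (v * e⁻¹ * v⁻¹ * p) (sh g (-1) u) := by
    rw [c1]
    refine Commute.mul_left ?_ (ak (PP_mono (by omega) hu'))
    have := (h1.mul_left h0.inv_left).map (sh g (-1))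
    rwa [map_mul, map_inv, sh_sh, show (1 : ℤ) + -1 = 0 from rfl, sh_zero] at this
  have k2 : Commute (v * e⁻¹ * v⁻¹ * p) u := by
    have := (hrel.inv_right.mul_right k1).mul_right hrel
    rw [← inv_inv (p * p * (v * e⁻¹ * v⁻¹) * p⁻¹ * p⁻¹), c2, inv_inv] at this
    have e5 : sh g 2 v * (sh g 3 v)⁻¹ * (p * p * e * p⁻¹ * p⁻¹) * sh g (-1) u *
        (sh g 2 v * (sh g 3 v)⁻¹ * (p * p * e * p⁻¹ * p⁻¹))⁻¹ = u := by
      calc _ = (sh g 2 v * (sh g 3 v)⁻¹) * ((p * p * e * p⁻¹ * p⁻¹) * sh g (-1) u *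
            (p * p * e * p⁻¹ * p⁻¹)⁻¹) * (sh g 2 v * (sh g 3 v)⁻¹)⁻¹ := by group
        _ = _ := by rw [e4, (h2.mul_left h3.inv_left).mul_inv_cancel]
    rwa [e5] at this
  rw [c1] at k2
  have k3 := ((h0.inv_left.mul_left k2).mul_left (ak (PP_mono (by omega) hu)).inv_left).inv_left
  have e6 : (v⁻¹ * (v * (sh g (-1) v)⁻¹ * (e⁻¹ * p)) * (e⁻¹ * p)⁻¹)⁻¹ = sh g (-1) v := by group
  rwa [e6] at k3

theorem key_claim (H : ∀ n, 0 ≤ n → Commute f (ep f g n)) {v : G} {j : ℤ} (hj : 3 ≤ j)
    (hv : v ∈ PP f g j)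
    (hrel : Commute (v * (ep f g 0)⁻¹ * v⁻¹ * piE f g)
      (piE f g * piE f g * (v * (ep f g 0)⁻¹ * v⁻¹) * (piE f g)⁻¹ * (piE f g)⁻¹))
    (r : ℕ) : ∀ u, u ∈ PP f g (5 + 4 * r) → u ∈ CC f g (j + r) → Commute (sh g (-1) v) u := by
  induction r with
  | zero =>
    intro u h1 h2
    exact key_step H (PP_mono hj hv) hrel (PP_mono (by omega) h1)
      (comm_of_mem h2 (PP_mono (by omega) hv)) (comm_of_mem h2 (sh_mem_PP _ (by omega) hv))
      (comm_of_mem h2 (sh_mem_PP _ (by omega) hv)) (comm_of_mem h2 (sh_mem_PP _ (by omega) hv))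
  | succ r ih =>
    intro u h1 h2
    have key : ∀ i : ℤ, 0 ≤ i → i ≤ 3 → Commute (sh g i v) u := by
      intro i hi hi'
      have := (ih (sh g (-(i + 1)) u) (sh_mem_PP _ (by omega) h1)
        (sh_mem_CC _ (by omega) h2)).map (sh g (i + 1))
      rwa [sh_sh, sh_sh, neg_add_cancel, sh_zero, show -1 + (i + 1) = i by ring] at this
    refine key_step H (PP_mono hj hv) hrel (PP_mono (by omega) h1) ?_ (key 1 (by omega) (by omega))
      (key 2 (by omega) (by omega)) (key 3 (by omega) (by omega))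
    have := key 0 (by omega) (by omega)
    rwa [sh_zero] at this

end Thompson

section Main
variable {G : Type} [Group G] {a y v : G}

theorem comm_a_g (h1 : Commute a (fE a y)) : Commute a (gE a y) := by
  have := (h1.map (MulAut.conj y⁻¹).toMonoidHom).symm.inv_right
  simpa [fE, gE, mul_assoc] using this

theorem transport {s t u : G} (h : y * s * y * t * y * u = 1) (hu : Commute a u) :
    y * (t * fE a y * t⁻¹) * y⁻¹ = s⁻¹ * (gE a y)⁻¹ * s := by
  have e : y * s * y * t * y = u⁻¹ := eq_inv_of_mul_eq_one_left h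
  have e2 := hu.symm.inv_mul_cancel
  rw [← inv_inv u, ← e, inv_inv] at e2
  rw [fE, gE]
  conv_rhs => rw [← e2]
  group

theorem comm_transport {x : G} (hx : Commute a x) : Commute (fE a y) (y * x * y⁻¹) :=
  hx.map (MulAut.conj y).toMonoidHom

theorem base_facts (h1 : Commute a (fE a y)) (hv : Commute a v) (hR : relR a y v = 1) :
    Commute (fE a y) (piE (fE a y) (gE a y)) ∧ Commute (fE a y) (ep (fE a y) (gE a y) 1) ∧
    (Commute (fE a y) v → Commute (fE a y) (ep (fE a y) (gE a y) 0) ∧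
      Commute (v * (ep (fE a y) (gE a y) 0)⁻¹ * v⁻¹ * piE (fE a y) (gE a y))
      (piE (fE a y) (gE a y) * piE (fE a y) (gE a y) * (v * (ep (fE a y) (gE a y) 0)⁻¹ * v⁻¹) *
        (piE (fE a y) (gE a y))⁻¹ * (piE (fE a y) (gE a y))⁻¹)) := by
  have h2 := comm_a_g h1
  rw [relR] at hR
  set f := fE a y with hf
  set g := gE a y with hg
  have kA : Commute a (g * f * f * g)⁻¹ := (((h2.mul_right h1).mul_right h1).mul_right h2).inv_right
  have kC : Commute a (v * (g * g * f))⁻¹ :=
    (hv.mul_right ((h2.mul_right h2).mul_right h1)).inv_right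
  have kB : Commute a (g * g * g * f)⁻¹ := (((h2.mul_right h2).mul_right h2).mul_right h1).inv_right
  have hR2 : y * (v * (g * g * f))⁻¹ * y * (g * g * g * f)⁻¹ * y * (g * f * f * g)⁻¹ = 1 := by
    calc _ = (y * (g * f * f * g)⁻¹)⁻¹ * (y * (g * f * f * g)⁻¹ * y * (v * (g * g * f))⁻¹ * y *
          (g * g * g * f)⁻¹) * (y * (g * f * f * g)⁻¹) := by group
      _ = 1 := by rw [hR]; group
  have hR3 : y * (g * g * g * f)⁻¹ * y * (g * f * f * g)⁻¹ * y * (v * (g * g * f))⁻¹ = 1 := by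
    calc _ = (y * (g * g * g * f)⁻¹) * (y * (g * f * f * g)⁻¹ * y * (v * (g * g * f))⁻¹ * y *
          (g * g * g * f)⁻¹) * (y * (g * g * g * f)⁻¹)⁻¹ := by group
      _ = 1 := by rw [hR]; group
  have t1 := transport hR kB
  have t2 := transport hR2 kA
  have t3 := transport hR3 kC
  rw [← hf, ← hg] at t1 t2 t3
  have u1 : ((g * f * f * g)⁻¹)⁻¹ * g⁻¹ * (g * f * f * g)⁻¹ = (piE f g)⁻¹ := by
    rw [piE]; group
  have u2 : ((v * (g * g * f))⁻¹)⁻¹ * g⁻¹ * (v * (g * g * f))⁻¹ = v * (ep f g 0)⁻¹ * v⁻¹ := by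
    rw [ep, sh_zero]; group
  have u3 : ((g * g * g * f)⁻¹)⁻¹ * g⁻¹ * (g * g * g * f)⁻¹ = (ep f g 1)⁻¹ := by
    rw [ep, sh_one]; group
  rw [u1] at t1
  rw [u2] at t2
  rw [u3] at t3
  have c1 := comm_transport (y := y) ((kC.mul_right h1).mul_right kC.inv_right)
  have c2 := comm_transport (y := y) ((kB.mul_right h1).mul_right kB.inv_right)
  have c3 := comm_transport (y := y) ((kA.mul_right h1).mul_right kA.inv_right)
  rw [← hf] at c1 c2 c3
  rw [t1] at c1
  rw [t2] at c2
  rw [t3] at c3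
  have hp : Commute f (piE f g) := by simpa using c1.inv_right
  have he1 : Commute f (ep f g 1) := by simpa using c3.inv_right
  refine ⟨hp, he1, fun hfv => ?_⟩
  have he0 : Commute f (ep f g 0) := by
    have := ((hfv.inv_right.mul_right c2).mul_right hfv).inv_right
    simpa [mul_assoc] using this
  refine ⟨he0, ?_⟩
  have m := (mirror hp he0 he1 rfl rfl).map (MulAut.conj y).toMonoidHom
  simp only [map_mul (MulAut.conj y).toMonoidHom _ (f⁻¹ * g⁻¹ * g⁻¹ * f * g * g * f),
    map_mul (MulAut.conj y).toMonoidHom _ (f⁻¹ * g⁻¹ * g⁻¹ * f * g * g * f)⁻¹,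
    map_mul (MulAut.conj y).toMonoidHom _ (f⁻¹ * g⁻¹ * g⁻¹ * g⁻¹ * f * g * g * g * f),
    map_inv] at m
  have w0 : (MulAut.conj y).toMonoidHom (f⁻¹ * g⁻¹ * g⁻¹ * f * g * g * f) = (piE f g)⁻¹ := by
    rw [← t1]
    calc _ = y * (f⁻¹ * g⁻¹ * g⁻¹ * (v⁻¹ * f * v) * g * g * f) * y⁻¹ := by
          rw [hfv.symm.inv_mul_cancel]; rfl
      _ = _ := by simp only [mul_assoc, mul_inv_rev, inv_inv]
  have w1 : (MulAut.conj y).toMonoidHom (f⁻¹ * g⁻¹ * g⁻¹ * g⁻¹ * f * g * g * g * f) =
      v * (ep f g 0)⁻¹ * v⁻¹ := by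
    rw [← t2]
    change y * _ * y⁻¹ = _
    simp only [mul_assoc, mul_inv_rev, inv_inv]
  rw [w0, w1, inv_inv] at m
  exact m

theorem derive2 {l : ℕ} (r : Fin l → FreeGroup (Fin 2)) (h1 : Commute a (fE a y))
    (hR : relR a y (info r (es (fE a y) (gE a y))) = 1) {w : FreeGroup (Fin 2)}
    (hw : w ∈ normalClosure (Set.range r)) :
    Commute (part (ep (fE a y) (gE a y)) 0 w)
      (ep (fE a y) (gE a y) 1 * (ep (fE a y) (gE a y) 2)⁻¹) := by
  have h2 := comm_a_g h1
  have cen : ∀ {b x : G}, x ∈ centralizer {b} ↔ Commute b x := fun {b x} =>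
    mem_centralizer_singleton_iff.trans ⟨fun h => h.symm, fun h => h.symm⟩
  have hav : Commute a (info r (es (fE a y) (gE a y))) := by
    rw [← cen]
    apply info_mem
    intro n _
    have k1 := cen.2 h1
    have k2 := cen.2 h2
    have k3 : piE (fE a y) (gE a y) ∈ centralizer {a} := by
      rw [piE]
      repeat first | assumption | apply mul_mem | apply inv_mem
    simp only [es, ep, sh_apply]
    repeat first | assumption | apply mul_mem | apply inv_mem | apply zpow_mem
  obtain ⟨hp, he1, hb⟩ := base_facts h1 hav hR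
  set f := fE a y with hf
  set g := gE a y with hg
  have hfv : Commute f (info r (es f g)) := by
    rw [← cen]
    apply info_mem
    intro n _
    have k1 := cen.2 hp
    have k2 := cen.2 he1
    simp only [es, sh_apply]
    repeat first | assumption | apply mul_mem | apply inv_mem | apply zpow_mem
  obtain ⟨he0, hrel⟩ := hb hfv
  have H := comm_f_ep hp he0 he1
  rw [info_congr r (es_eq H)] at hrel
  have hvP : info r (ep f g) ∈ PP f g (6 + 28 * l) := info_mem _ r (fun n hn => ep_mem hn)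
  have hcl : ∀ u, u ∈ PP f g (6 + 28 * l) → u ∈ CC f g (6 + 35 * l) →
      Commute u (info r (ep f g)) := by
    intro u hu1 hu2
    have := (key_claim H (by omega) hvP hrel (7 * l) (sh g (-1) u) (sh_mem_PP _ (by omega) hu1)
      (sh_mem_CC _ (by omega) hu2)).map (sh g 1)
    rw [sh_sh, sh_sh, neg_add_cancel, sh_zero, sh_zero] at this
    exact this.symm
  have hcent : ∀ (c : Fin l) (i : ℤ), 0 ≤ i → i ≤ 3 →
      Commute (ep f g i * (ep f g (i + 1))⁻¹) (part (ep f g) 0 (r c)) := by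
    intro c i hi hi'
    have hc := c.2
    have e1 := hcl (ep f g (i + (6 + 28 * l + 7 * (c : ℕ))) *
      (ep f g (i + (6 + 28 * l + 7 * (c : ℕ)) + 1))⁻¹) (gen_mem_PP (by omega))
      (gen_mem_CC H (by omega))
    have e2 := commute_of_prod _ _ c e1 (by
      intro c' hc'
      have hne : (c' : ℕ) ≠ c := fun h => hc' (Fin.ext h)
      rcases lt_or_gt_of_ne hne with h | h
      · refine comm_of_mem (k := 6 + 28 * l + 7 * (c : ℕ)) (part_mem _ ?_ ?_ _)
          (gen_mem_PP (by omega))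
        · have := gen_mem_CC H (i := 6 + 28 * l + 7 * (c' : ℕ) + 3)
            (k := 6 + 28 * l + 7 * (c : ℕ)) (by omega)
          rwa [add_assoc _ (3 : ℤ) 1] at this
        · exact gen_mem_CC H (by omega)
      · refine (comm_of_mem (k := 6 + 28 * l + 7 * (c' : ℕ)) (gen_mem_CC H (by omega))
          (part_mem _ ?_ ?_ _)).symm
        · exact mul_mem (ep_mem (by omega)) (inv_mem (ep_mem (by omega)))
        · exact gen_mem_PP le_rfl)
    have e3 := e2.map (sh g (-(6 + 28 * l + 7 * (c : ℕ))))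
    rw [sh_part, map_mul, map_inv, sh_ep, sh_ep, add_neg_cancel, add_neg_cancel_right] at e3
    rwa [show i + (6 + 28 * l + 7 * (c : ℕ)) + 1 + -(6 + 28 * l + 7 * (c : ℕ)) = i + 1 by ring] at e3
  let M : Subgroup G := closure {ep f g 0 * (ep f g (0 + 1))⁻¹, ep f g 1 * (ep f g (1 + 1))⁻¹,
    ep f g 3 * (ep f g (3 + 1))⁻¹}
  have hM : ∀ u, part (ep f g) 0 u ∈ M :=
    part_mem M (subset_closure (by simp)) (subset_closure (by simp))
  let N : Subgroup (FreeGroup (Fin 2)) := (centralizer (M : Set G)).comap (part (ep f g) 0)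
  have hN : N.Normal := ⟨fun u hu x => by
    simp only [N, mem_comap, map_mul, map_inv] at hu ⊢
    rw [mem_centralizer_iff.1 hu _ (hM x)]
    simpa using hu⟩
  have hle : normalClosure (Set.range r) ≤ N := by
    apply normalClosure_le_normal
    rintro _ ⟨c, rfl⟩
    simp only [N, SetLike.mem_coe, mem_comap, M]
    rw [centralizer_closure, mem_centralizer_iff]
    rintro x (rfl | rfl | rfl)
    · exact (hcent c 0 (by omega) (by omega)).eq
    · exact (hcent c 1 (by omega) (by omega)).eq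
    · exact (hcent c 3 (by omega) (by omega)).eq
  exact (mem_centralizer_iff.1 (hle hw) _ (subset_closure (by simp))).symm

end Main

end Pool.Agent.Work.MP_f66739_al
end

-- merged part: Pool.Agent.Work.MP_f66739_al.H66Model
section
set_option autoImplicit false
set_option linter.unusedSimpArgs false

namespace Pool.Agent.Work.MP_f66739_al

open Subgroup Function

/-- Complement every letter of a binary word. -/
def flp (w : List Bool) : List Bool := w.map not

@[simp] theorem flp_nil : flp [] = [] := rfl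
@[simp] theorem flp_cons (b : Bool) (w : List Bool) : flp (b :: w) = (!b) :: flp w := rfl
@[simp] theorem flp_flp (w : List Bool) : flp (flp w) = w := by
  induction w with
  | nil => rfl
  | cons b w ih => simp [ih]
@[simp] theorem length_flp (w : List Bool) : (flp w).length = w.length := by simp [flp]

section Model
variable {H : Type} [Group H] (l β : H)

/-- The generic label of the reflection. -/
def lb : H := l * β * l

/-- The label of `f` at its fixed end point. -/
def lq : H := l * β * l * β * l⁻¹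

/-- The special label of the reflection. -/
def la : H := l * β * l⁻¹

/-- The map `f` on labelled words. -/
def fF : List Bool × H → List Bool × H
  | (false :: false :: w, h) => (false :: w, h)
  | ([false], h) => ([], h)
  | (false :: true :: w, h) => (true :: false :: false :: w, h)
  | ([], h) => ([true, false], h)
  | (true :: false :: w, h) => (true :: false :: true :: w, h)
  | ([true], h) => ([true], lq l β * h)
  | (true :: true :: w, h) => (true :: true :: w, h)

/-- The inverse of `fF`. -/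
def fI : List Bool × H → List Bool × H
  | (false :: w, h) => (false :: false :: w, h)
  | ([], h) => ([false], h)
  | (true :: false :: false :: w, h) => (false :: true :: w, h)
  | ([true, false], h) => ([], h)
  | (true :: false :: true :: w, h) => (true :: false :: w, h)
  | ([true], h) => ([true], (lq l β)⁻¹ * h)
  | (true :: true :: w, h) => (true :: true :: w, h)

/-- The map `g` on labelled words. -/
def gF : List Bool × H → List Bool × H
  | (false :: false :: w, h) => (false :: false :: w, h)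
  | ([false], h) => ([false], l⁻¹ * h)
  | (false :: true :: false :: w, h) => (false :: true :: w, h)
  | ([false, true], h) => ([], h)
  | (false :: true :: true :: w, h) => (true :: false :: w, h)
  | ([], h) => ([true], h)
  | (true :: w, h) => (true :: true :: w, h)

/-- The inverse of `gF`. -/
def gI : List Bool × H → List Bool × H
  | (false :: false :: w, h) => (false :: false :: w, h)
  | ([false], h) => ([false], l * h)
  | (false :: true :: w, h) => (false :: true :: false :: w, h)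
  | ([], h) => ([false, true], h)
  | (true :: false :: w, h) => (false :: true :: true :: w, h)
  | ([true], h) => ([], h)
  | (true :: true :: w, h) => (true :: w, h)

/-- The permutation `f`. -/
def fP : Equiv.Perm (List Bool × H) where
  toFun := fF l β
  invFun := fI l β
  left_inv := by
    rintro ⟨_ | ⟨_ | _, _ | ⟨_ | _, w⟩⟩, h⟩ <;> simp [fF, fI]
  right_inv := by
    rintro ⟨_ | ⟨_ | _, _ | ⟨_ | _, _ | ⟨_ | _, w⟩⟩⟩, h⟩ <;> simp [fF, fI]

/-- The permutation `g`. -/
def gP : Equiv.Perm (List Bool × H) where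
  toFun := gF l
  invFun := gI l
  left_inv := by
    rintro ⟨_ | ⟨_ | _, _ | ⟨_ | _, _ | ⟨_ | _, w⟩⟩⟩, h⟩ <;> simp [gF, gI]
  right_inv := by
    rintro ⟨_ | ⟨_ | _, _ | ⟨_ | _, w⟩⟩, h⟩ <;> simp [gF, gI]

/-- The recursive part of the map `y` (first argument `true`) and its inverse (`false`). -/
noncomputable def ah : Bool → List Bool → H → List Bool × H
  | true, [], h => ([false], l * h)
  | true, [true], h => ([], (lq l β)⁻¹ * h)
  | true, true :: false :: w, h => (false :: true :: w, (lb l β)⁻¹ * ((lb l β)⁻¹ * h))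
  | true, false :: w, h =>
      (false :: false :: flp (ah false w h).1, (lb l β)⁻¹ * (ah false w h).2)
  | true, true :: true :: w, h =>
      (true :: (ah false (flp w) ((lb l β)⁻¹ * h)).1, (ah false (flp w) ((lb l β)⁻¹ * h)).2)
  | false, [false], h => ([], l⁻¹ * h)
  | false, [], h => ([true], lq l β * h)
  | false, false :: true :: w, h => (true :: false :: w, lb l β * (lb l β * h))
  | false, false :: false :: w, h =>
      (false :: (ah true (flp w) (lb l β * h)).1, (ah true (flp w) (lb l β * h)).2)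
  | false, true :: w, h => (true :: true :: flp (ah true w h).1, lb l β * (ah true w h).2)
termination_by _ w _ => w.length
decreasing_by all_goals simp

theorem ah_ah : ∀ (n : ℕ) (w : List Bool), w.length ≤ n → ∀ (d : Bool) (h : H),
    ah l β (!d) (ah l β d w h).1 (ah l β d w h).2 = (w, h) := by
  intro n
  induction n with
  | zero =>
    intro w hw d h
    obtain rfl := List.eq_nil_of_length_eq_zero (Nat.le_zero.1 hw)
    cases d <;> simp [ah]
  | succ n ih =>
    intro w hw d h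
    have i1 : ∀ u, u.length ≤ n → ∀ h, ah l β true (ah l β false u h).1 (ah l β false u h).2 = (u, h) :=
      fun u hu h => ih u hu false h
    have i2 : ∀ u, u.length ≤ n → ∀ h, ah l β false (ah l β true u h).1 (ah l β true u h).2 = (u, h) :=
      fun u hu h => ih u hu true h
    rcases w with _ | ⟨b, w⟩
    · cases d <;> simp [ah]
    have hw1 : w.length ≤ n := by simpa using hw
    cases d <;> cases b
    · rcases w with _ | ⟨_ | _, w⟩
      · simp [ah]
      · have := i2 (flp w) (by simp at hw1 ⊢; omega) (lb l β * h)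
        simp [ah, this]
      · simp [ah]
    · simp [ah, i2 w hw1]
    · simp [ah, i1 w hw1]
    · rcases w with _ | ⟨_ | _, w⟩
      · simp [ah]
      · simp [ah]
      · have := i1 (flp w) (by simp at hw1 ⊢; omega) ((lb l β)⁻¹ * h)
        simp [ah, this]

theorem ah_tf (w : List Bool) (h : H) :
    ah l β true (ah l β false w h).1 (ah l β false w h).2 = (w, h) := ah_ah l β _ w le_rfl false h

theorem ah_ft (w : List Bool) (h : H) :
    ah l β false (ah l β true w h).1 (ah l β true w h).2 = (w, h) := ah_ah l β _ w le_rfl true h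

/-- The map `y`. -/
noncomputable def yF : (List Bool × H) ⊕ (List Bool × H) → (List Bool × H) ⊕ (List Bool × H)
  | .inr (true :: true :: w, h) => .inr (true :: true :: w, h)
  | .inr (true :: false :: w, h) => .inl (true :: false :: w, h)
  | .inr ([true], h) => .inl ([true], h)
  | .inr ([], h) => .inl ([], h)
  | .inr (false :: w, h) => .inl (false :: w, h)
  | .inl (true :: w, h) => .inr (false :: flp w, (lb l β)⁻¹ * h)
  | .inl ([], h) => .inr ([], (lb l β)⁻¹ * h)
  | .inl ([false], h) => .inr ([true], (la l β)⁻¹ * h)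
  | .inl (false :: true :: w, h) => .inr (true :: false :: flp w, (lb l β)⁻¹ * h)
  | .inl ([false, false], h) => .inl ([true, true, true], la l β * h)
  | .inl (false :: false :: false :: w, h) => .inl (true :: true :: true :: true :: flp w, lb l β * h)
  | .inl ([false, false, true], h) => .inl ([true, true, false], β * l⁻¹ * h)
  | .inl ([false, false, true, false], h) => .inl ([true, true], la l β * h)
  | .inl (false :: false :: true :: false :: false :: w, h) =>
      .inl (true :: true :: true :: false :: flp w, lb l β * h)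
  | .inl (false :: false :: true :: false :: true :: w, h) =>
      .inl (true :: true :: false :: true :: flp w, lb l β * h)
  | .inl (false :: false :: true :: true :: w, h) =>
      .inl (true :: true :: false :: false :: (ah l β true w h).1, (ah l β true w h).2)

/-- The inverse of `yF`. -/
noncomputable def yI : (List Bool × H) ⊕ (List Bool × H) → (List Bool × H) ⊕ (List Bool × H)
  | .inr (true :: true :: w, h) => .inr (true :: true :: w, h)
  | .inl (true :: false :: w, h) => .inr (true :: false :: w, h)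
  | .inl ([true], h) => .inr ([true], h)
  | .inl ([], h) => .inr ([], h)
  | .inl (false :: w, h) => .inr (false :: w, h)
  | .inr (false :: w, h) => .inl (true :: flp w, lb l β * h)
  | .inr ([], h) => .inl ([], lb l β * h)
  | .inr ([true], h) => .inl ([false], la l β * h)
  | .inr (true :: false :: w, h) => .inl (false :: true :: flp w, lb l β * h)
  | .inl ([true, true, true], h) => .inl ([false, false], (la l β)⁻¹ * h)
  | .inl (true :: true :: true :: true :: w, h) =>
      .inl (false :: false :: false :: flp w, (lb l β)⁻¹ * h)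
  | .inl ([true, true, false], h) => .inl ([false, false, true], (β * l⁻¹)⁻¹ * h)
  | .inl ([true, true], h) => .inl ([false, false, true, false], (la l β)⁻¹ * h)
  | .inl (true :: true :: true :: false :: w, h) =>
      .inl (false :: false :: true :: false :: false :: flp w, (lb l β)⁻¹ * h)
  | .inl (true :: true :: false :: true :: w, h) =>
      .inl (false :: false :: true :: false :: true :: flp w, (lb l β)⁻¹ * h)
  | .inl (true :: true :: false :: false :: w, h) =>
      .inl (false :: false :: true :: true :: (ah l β false w h).1, (ah l β false w h).2)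

/-- The permutation `y`. -/
noncomputable def yP : Equiv.Perm ((List Bool × H) ⊕ (List Bool × H)) where
  toFun := yF l β
  invFun := yI l β
  left_inv := by
    rintro (⟨_ | ⟨_ | _, _ | ⟨_ | _, _ | ⟨_ | _, _ | ⟨_ | _, _ | ⟨_ | _, w⟩⟩⟩⟩⟩, h⟩ |
      ⟨_ | ⟨_ | _, _ | ⟨_ | _, w⟩⟩, h⟩) <;> simp only [yF, yI, ah_ft, flp_flp] <;> simp [mul_assoc]
  right_inv := by
    rintro (⟨_ | ⟨_ | _, _ | ⟨_ | _, _ | ⟨_ | _, _ | ⟨_ | _, w⟩⟩⟩⟩, h⟩ |
      ⟨_ | ⟨_ | _, _ | ⟨_ | _, w⟩⟩, h⟩) <;> simp only [yF, yI, ah_tf, flp_flp] <;> simp [mul_assoc]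

/-- The permutation `a`. -/
def aP : Equiv.Perm ((List Bool × H) ⊕ (List Bool × H)) := Equiv.sumCongr 1 (fP l β)

/-- The embedding of permutations of the first summand. -/
def emb : Equiv.Perm (List Bool × H) →* Equiv.Perm ((List Bool × H) ⊕ (List Bool × H)) :=
  (Equiv.Perm.sumCongrHom _ _).comp (MonoidHom.inl _ _)

omit [Group H] in
theorem emb_inl (σ : Equiv.Perm (List Bool × H)) (p : List Bool × H) :
    emb σ (.inl p) = .inl (σ p) := rfl

omit [Group H] in
theorem emb_inr (σ : Equiv.Perm (List Bool × H)) (p : List Bool × H) :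
    emb σ (.inr p) = .inr p := rfl

theorem fP_apply (p : List Bool × H) : fP l β p = fF l β p := rfl
theorem fP_symm (p : List Bool × H) : (fP l β).symm p = fI l β p := rfl
theorem gP_apply (p : List Bool × H) : gP l p = gF l p := rfl
theorem gP_symm (p : List Bool × H) : (gP l).symm p = gI l p := rfl
theorem yP_apply (p : (List Bool × H) ⊕ (List Bool × H)) : yP l β p = yF l β p := rfl
theorem yP_symm (p : (List Bool × H) ⊕ (List Bool × H)) : (yP l β).symm p = yI l β p := rfl
theorem aP_inl (p : List Bool × H) : aP l β (.inl p) = .inl p := rfl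
theorem aP_inr (p : List Bool × H) : aP l β (.inr p) = .inr (fF l β p) := rfl
theorem aP_symm_inl (p : List Bool × H) : (aP l β).symm (.inl p) = .inl p := rfl
theorem aP_symm_inr (p : List Bool × H) : (aP l β).symm (.inr p) = .inr (fI l β p) := rfl

theorem fE_model : fE (aP l β) (yP l β) = emb (fP l β) := by
  rw [fE, mul_inv_eq_iff_eq_mul]
  ext1 p
  simp only [Equiv.Perm.mul_apply]
  rcases p with (⟨_ | ⟨_ | _, _ | ⟨_ | _, _ | ⟨_ | _, _ | ⟨_ | _, _ | ⟨_ | _, w⟩⟩⟩⟩⟩, h⟩ |
      ⟨_ | ⟨_ | _, _ | ⟨_ | _, w⟩⟩, h⟩) <;>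
    simp only [yP_apply, aP_inl, aP_inr, yF, fF, emb_inl, emb_inr, fP_apply]

variable {l β}

theorem gE_model (hl : l ^ 4 = 1) (hb : β ^ 2 = 1) : gE (aP l β) (yP l β) = emb (gP l) := by
  have h1 : ∀ x, l * (l * (l * (l * x))) = x := fun x => by
    calc _ = l ^ 4 * x := by simp [pow_succ, mul_assoc]
      _ = x := by rw [hl, one_mul]
  have h2 : ∀ x, β * (β * x) = x := fun x => by rw [← mul_assoc, ← pow_two, hb, one_mul]
  have h3 : l⁻¹ = l * (l * l) := by
    rw [inv_eq_iff_mul_eq_one]; simpa using h1 1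
  have h4 : β⁻¹ = β := by
    rw [inv_eq_iff_mul_eq_one]; simpa using h2 1
  rw [gE, mul_assoc, inv_mul_eq_iff_eq_mul, inv_mul_eq_iff_eq_mul]
  ext1 p
  simp only [Equiv.Perm.mul_apply]
  rcases p with (⟨_ | ⟨_ | _, _ | ⟨_ | _, _ | ⟨_ | _, _ | ⟨_ | _, _ | ⟨_ | _, w⟩⟩⟩⟩⟩, h⟩ |
      ⟨_ | ⟨_ | _, _ | ⟨_ | _, w⟩⟩, h⟩) <;>
    simp only [yP_apply, aP_inl, aP_inr, yF, fF, gF, emb_inl, emb_inr, gP_apply, flp_cons, flp_nil,
      Bool.not_true, Bool.not_false]
  simp [la, lb, lq, mul_assoc, h1, h2, h3, h4]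

theorem rel_model (hl : l ^ 4 = 1) (hb : β ^ 2 = 1) : relR (aP l β) (yP l β) 1 = 1 := by
  have h1 : ∀ x, l * (l * (l * (l * x))) = x := fun x => by
    calc _ = l ^ 4 * x := by simp [pow_succ, mul_assoc]
      _ = x := by rw [hl, one_mul]
  have h2 : ∀ x, β * (β * x) = x := fun x => by rw [← mul_assoc, ← pow_two, hb, one_mul]
  have h3 : l⁻¹ = l * (l * l) := by
    rw [inv_eq_iff_mul_eq_one]; simpa using h1 1
  have h4 : β⁻¹ = β := by
    rw [inv_eq_iff_mul_eq_one]; simpa using h2 1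
  rw [relR, fE_model, gE_model hl hb, one_mul]
  simp only [← map_mul, ← map_inv]
  suffices h : yP l β * emb (gP l * gP l * gP l * fP l β)⁻¹ * yP l β *
      emb (gP l * fP l β * fP l β * gP l)⁻¹ * yP l β = emb (gP l * gP l * fP l β) by
    calc _ = (yP l β * emb (gP l * gP l * gP l * fP l β)⁻¹)⁻¹ *
          (yP l β * emb (gP l * gP l * gP l * fP l β)⁻¹ * yP l β *
          emb (gP l * fP l β * fP l β * gP l)⁻¹ * yP l β) * (emb (gP l * gP l * fP l β))⁻¹ *
          (yP l β * emb (gP l * gP l * gP l * fP l β)⁻¹) := by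
            simp only [map_inv]; group
      _ = 1 := by rw [h]; group
  ext1 p
  simp only [Equiv.Perm.mul_apply]
  rcases p with (⟨_ | ⟨_ | _, _ | ⟨_ | _, _ | ⟨_ | _, _ | ⟨_ | _, _ | ⟨_ | _,
      _ | ⟨_ | _, w⟩⟩⟩⟩⟩⟩, h⟩ | ⟨_ | ⟨_ | _, _ | ⟨_ | _, _ | ⟨_ | _, w⟩⟩⟩, h⟩) <;>
    simp only [yP_apply, yF, fF, gF, fI, gI, emb_inl, emb_inr, gP_apply, fP_apply, flp_cons,
      flp_nil, Bool.not_true, Bool.not_false, mul_inv_rev, Equiv.Perm.mul_apply,
      Equiv.Perm.coe_inv, fP_symm, gP_symm, ah, flp_flp, mul_inv_cancel_left, inv_mul_cancel_left,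
      ah_tf, ah_ft] <;>
    simp [la, lb, lq, mul_assoc, h1, h2, h3, h4]

/-- The distinguished point. -/
def hd : List Bool := [true, true, true, true, true]

/-- A pure label at the distinguished point. -/
def lab : H →* Equiv.Perm (List Bool × H) where
  toFun x :=
    { toFun := fun p => if p.1 = hd then (p.1, x * p.2) else p
      invFun := fun p => if p.1 = hd then (p.1, x⁻¹ * p.2) else p
      left_inv := by rintro ⟨w, h⟩; by_cases hw : w = hd <;> simp [hw]
      right_inv := by rintro ⟨w, h⟩; by_cases hw : w = hd <;> simp [hw] }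
  map_one' := by ext1 ⟨w, h⟩; simp
  map_mul' x y := by
    ext1 ⟨w, h⟩
    by_cases hw : w = hd <;> simp [hw, mul_assoc]

theorem lab_hd (x h : H) : lab x (hd, h) = (hd, x * h) := by simp [lab]

theorem lab_ne (x h : H) {w : List Bool} (hw : w ≠ hd) : lab x (w, h) = (w, h) := by simp [lab, hw]

theorem lift_split {E : Type} [Group E] (Λ : H →* E) {Y Z : E} (p q : H)
    (hY : ∀ x, Commute Y (Λ x)) (hZ : ∀ x, Commute Z (Λ x)) (hYZ : Commute Y Z)
    {w : FreeGroup (Fin 2)} (hw : w ∈ commutator (FreeGroup (Fin 2))) :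
    FreeGroup.lift ![Y * Λ p, Z * Λ q] w = Λ (FreeGroup.lift ![p, q] w) := by
  let ψ : Multiplicative ℤ × Multiplicative ℤ →* E :=
    MonoidHom.noncommCoprod (zpowersHom E Y) (zpowersHom E Z) (fun m n => hYZ.zpow_zpow _ _)
  let Φ : (Multiplicative ℤ × Multiplicative ℤ) × H →* E :=
    MonoidHom.noncommCoprod ψ Λ (fun m x => ((hY x).zpow_left _).mul_left ((hZ x).zpow_left _))
  let ab : FreeGroup (Fin 2) →* Multiplicative ℤ × Multiplicative ℤ :=
    FreeGroup.lift ![(Multiplicative.ofAdd 1, 1), (1, Multiplicative.ofAdd 1)]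
  have e : FreeGroup.lift ![Y * Λ p, Z * Λ q] = Φ.comp (ab.prod (FreeGroup.lift ![p, q])) := by
    ext i
    fin_cases i <;> simp [Φ, ψ, ab]
  have e2 : ab w = 1 := Abelianization.commutator_subset_ker ab hw
  rw [e]
  simp [Φ, e2]

theorem ep_num {G : Type} [Group G] (f g : G) :
    ep f g 0 = g * g * f * g * f⁻¹ * g⁻¹ * g⁻¹ ∧ ep f g 1 = g * ep f g 0 * g⁻¹ ∧
    ep f g 2 = g * ep f g 1 * g⁻¹ ∧ ep f g 3 = g * ep f g 2 * g⁻¹ ∧
    ep f g 4 = g * ep f g 3 * g⁻¹ :=
  ⟨sh_zero _ _, ep_succ f g 0, ep_succ f g 1, ep_succ f g 2, ep_succ f g 3⟩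

theorem gens_model (h : H) :
    (ep (fP l β) (gP l) 3 * (ep (fP l β) (gP l) 4)⁻¹) (hd, h) = (hd, l⁻¹ * h) ∧
    (ep (fP l β) (gP l) 0 * (ep (fP l β) (gP l) 1)⁻¹) (hd, h) = (hd, lq l β * h) ∧
    ((ep (fP l β) (gP l) 1 * (ep (fP l β) (gP l) 2)⁻¹) (hd, h)).1 ≠ hd ∧
    ∀ w, w ≠ hd → (ep (fP l β) (gP l) 3 * (ep (fP l β) (gP l) 4)⁻¹) (w, h) = (w, h) ∨
      (ep (fP l β) (gP l) 0 * (ep (fP l β) (gP l) 1)⁻¹) (w, h) = (w, h) := by
  obtain ⟨e0, e1, e2, e3, e4⟩ := ep_num (fP l β) (gP l)
  rw [e4, e3, e2, e1, e0]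
  simp only [mul_inv_rev, inv_inv, Equiv.Perm.mul_apply, Equiv.Perm.coe_inv, fP_symm, gP_symm,
    fP_apply, gP_apply, hd]
  refine ⟨by simp [fF, gF, fI, gI], by simp [fF, gF, fI, gI], by simp [fF, gF, fI, gI], ?_⟩
  rintro (_ | ⟨_ | _, _ | ⟨_ | _, w⟩⟩) hw
  iterate 6 (left; simp [fF, gF, fI, gI])
  rcases w with (_ | ⟨_ | _, w⟩)
  iterate 2 (left; simp [fF, gF, fI, gI])
  rcases w with (_ | ⟨_ | _, w⟩)
  iterate 2 (left; simp [fF, gF, fI, gI])
  rcases w with (_ | ⟨_ | _, w⟩)
  iterate 2 (left; simp [fF, gF, fI, gI])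
  rcases w with (_ | ⟨_ | _, w⟩)
  · exact (hw rfl).elim
  · left; simp [fF, gF, fI, gI]
  · right; simp [fF, gF, fI, gI]

theorem part_model {w : FreeGroup (Fin 2)} (hw : w ∈ commutator (FreeGroup (Fin 2))) :
    part (ep (fP l β) (gP l)) 0 w = lab (FreeGroup.lift ![l⁻¹, lq l β] w) := by
  have key := gens_model (l := l) (β := β)
  rw [part, zero_add, zero_add, zero_add]
  generalize ep (fP l β) (gP l) 3 * (ep (fP l β) (gP l) 4)⁻¹ = Y at key ⊢
  generalize ep (fP l β) (gP l) 0 * (ep (fP l β) (gP l) 1)⁻¹ = Z at key ⊢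
  have a1 : ∀ h, (Y * lab (l⁻¹)⁻¹) (hd, h) = (hd, h) := fun h => by
    simp [lab_hd, (key _).1]
  have a2 : ∀ h, (Z * lab (lq l β)⁻¹) (hd, h) = (hd, h) := fun h => by
    rw [Equiv.Perm.mul_apply, lab_hd, (key _).2.1]; simp
  have := lift_split lab (Y := Y * lab (l⁻¹)⁻¹) (Z := Z * lab (lq l β)⁻¹) l⁻¹ (lq l β)
    (fun x => Equiv.Perm.Disjoint.commute (by
      rintro ⟨u, h⟩
      by_cases hu : u = hd
      · left; rw [hu, a1]
      · right; exact lab_ne _ _ hu))
    (fun x => Equiv.Perm.Disjoint.commute (by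
      rintro ⟨u, h⟩
      by_cases hu : u = hd
      · left; rw [hu, a2]
      · right; exact lab_ne _ _ hu))
    (Equiv.Perm.Disjoint.commute (by
      rintro ⟨u, h⟩
      by_cases hu : u = hd
      · left; rw [hu, a1]
      · simp only [Equiv.Perm.mul_apply, lab_ne _ _ hu]
        exact (key h).2.2.2 u hu)) hw
  rwa [map_inv, map_inv _ (lq l β), inv_mul_cancel_right, inv_mul_cancel_right] at this

theorem model_main (hl : l ^ 4 = 1) (hb : β ^ 2 = 1) {k : ℕ} (r : Fin k → FreeGroup (Fin 2))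
    (hr : ∀ c, r c ∈ commutator (FreeGroup (Fin 2)))
    (hr' : ∀ c, FreeGroup.lift ![l⁻¹, lq l β] (r c) = 1) :
    ∃ (E : Type) (_ : Group E) (a y : E), Commute a (fE a y) ∧
      relR a y (info r (es (fE a y) (gE a y))) = 1 ∧
      ∀ w ∈ commutator (FreeGroup (Fin 2)), Commute (part (ep (fE a y) (gE a y)) 0 w)
        (ep (fE a y) (gE a y) 1 * (ep (fE a y) (gE a y) 2)⁻¹) →
        FreeGroup.lift ![l⁻¹, lq l β] w = 1 := by
  have h1 : Commute (aP l β) (fE (aP l β) (yP l β)) := by
    rw [fE_model]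
    ext1 (p | p) <;> rfl
  obtain ⟨hp, he1, hb'⟩ := base_facts h1 (Commute.one_right _) (rel_model hl hb)
  have H0 := comm_f_ep hp (hb' (Commute.one_right _)).1 he1
  have hpart : ∀ w ∈ commutator (FreeGroup (Fin 2)),
      part (ep (fE (aP l β) (yP l β)) (gE (aP l β) (yP l β))) 0 w =
        emb (lab (FreeGroup.lift ![l⁻¹, lq l β] w)) := by
    intro w hw
    rw [← part_model hw, map_part, fE_model, gE_model hl hb]
    simp only [map_ep]
  refine ⟨_, inferInstance, aP l β, yP l β, h1, ?_, ?_⟩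
  · rw [info_congr r (es_eq H0)]
    have : info r (ep (fE (aP l β) (yP l β)) (gE (aP l β) (yP l β))) = 1 := by
      apply List.prod_eq_one
      intro x hx
      rw [List.mem_ofFn] at hx
      obtain ⟨c, rfl⟩ := hx
      rw [← zero_add (6 + 28 * (k : ℤ) + 7 * (c : ℕ)), ← sh_part, hpart _ (hr c), hr' c]
      simp
    rw [this]
    exact rel_model hl hb
  · intro w hw hc
    rw [hpart w hw, fE_model, gE_model hl hb, ← map_ep, ← map_ep, ← map_inv, ← map_mul] at hc
    have key := fun h => (gens_model (l := l) (β := β) h).2.2.1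
    generalize ep (fP l β) (gP l) 1 * (ep (fP l β) (gP l) 2)⁻¹ = e at key hc
    have h2 := DFunLike.congr_fun hc.eq (.inl (hd, 1))
    simp only [Equiv.Perm.mul_apply, emb_inl, Sum.inl.injEq, lab_hd] at h2
    rw [← Prod.mk.eta (p := e (hd, 1)), lab_ne _ _ (key 1), Prod.mk.eta] at h2
    have h3 := e.injective h2
    simpa using h3.symm

end Model

end Pool.Agent.Work.MP_f66739_al
end

-- merged part: Pool.Agent.Work.MP_f66739_al.H66Label
section
set_option autoImplicit false
set_option linter.unusedSimpArgs false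

namespace Pool.Agent.Work.MP_f66739_al

open Subgroup Function

theorem ev_fib {Ω G : Type} [Group G] {m : ℕ} (x y z : Ω → G) (ω₀ : Ω)
    (h : ∀ ω, ω ≠ ω₀ → x ω = 1 ∨ y ω = 1 ∨ z ω = 1) (w : FreeGroup (Fin m)) :
    ev (fib x : Wr Ω G) (fib y) (fib z) w = 1 ↔ ev (x ω₀) (y ω₀) (z ω₀) w = 1 := by
  have e : ∀ ω, ev x y z w ω = ev (x ω) (y ω) (z ω) w := fun ω =>
    map_ev (Pi.evalMonoidHom (fun _ => G) ω) x y z w
  rw [← map_ev, ← map_one fib, fib_injective.eq_iff]
  refine ⟨fun h1 => by rw [← e, h1]; rfl, fun h1 => funext fun ω => ?_⟩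
  rw [e]
  by_cases hω : ω = ω₀
  · rw [hω, h1]; rfl
  · rcases h ω hω with h2 | h2 | h2 <;> rw [h2]
    · exact ev_eq_one (uw_one_left _ _) _
    · exact ev_eq_one (uw_one_mid _ _) _
    · exact ev_eq_one (uw_one_right _ _) _

theorem fib_top_mul {Ω G : Type} [Group G] (x x' : Ω → G) (π π' : Equiv.Perm Ω) :
    (fib x * top π : Wr Ω G) * (fib x' * top π') =
      fib (fun ω => x ω * x' (π.symm ω)) * top (π * π') := by
  calc _ = fib x * (top π * fib x' * (top π)⁻¹) * (top π * top π') := by group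
    _ = _ := by rw [top_conj, ← map_mul, ← map_mul]; rfl

theorem layer_inv {G : Type} [Group G] (s t z : G) :
    ∃ (Γ : Type) (_ : Group Γ) (i : Fin 6 → Γ), (∀ k, i k * i k = 1) ∧
      ∀ (m : ℕ) (w : FreeGroup (Fin m)),
        ev (i 0 * i 1) (i 2 * i 3) (i 4 * i 5) w = 1 ↔ ev s t z w = 1 := by
  have e1 : ∀ a b : Fin 3, (top (Equiv.swap a b) : Wr (Fin 3) G) * top (Equiv.swap a b) = 1 := by
    intro a b
    rw [← map_mul, Equiv.swap_mul_self, map_one]
  have e2 : ∀ (a b : Fin 3) (x : Fin 3 → G), (∀ ω, x ω * x (Equiv.swap a b ω) = 1) →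
      (fib x * top (Equiv.swap a b) : Wr (Fin 3) G) * (fib x * top (Equiv.swap a b)) = 1 := by
    intro a b x hx
    rw [fib_top_mul, Equiv.swap_mul_self, map_one, mul_one, ← map_one fib]
    congr 1
    exact funext hx
  refine ⟨Wr (Fin 3) G, inferInstance,
    ![fib ![s, s⁻¹, 1] * top (Equiv.swap 0 1), top (Equiv.swap 0 1),
      fib ![t, 1, t⁻¹] * top (Equiv.swap 0 2), top (Equiv.swap 0 2),
      fib ![z, z⁻¹, 1] * top (Equiv.swap 0 1), top (Equiv.swap 0 1)], ?_, ?_⟩
  · intro k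
    fin_cases k
    · exact e2 _ _ _ (fun ω => by fin_cases ω <;> simp [Equiv.swap_apply_def])
    · exact e1 _ _
    · exact e2 _ _ _ (fun ω => by fin_cases ω <;> simp [Equiv.swap_apply_def])
    · exact e1 _ _
    · exact e2 _ _ _ (fun ω => by fin_cases ω <;> simp [Equiv.swap_apply_def])
    · exact e1 _ _
  · intro m w
    simp only [Matrix.cons_val, mul_assoc, e1, mul_one]
    exact ev_fib _ _ _ 0 (fun ω hω => by fin_cases ω <;> simp at hω ⊢) w

theorem layer_shift {Γ : Type} [Group Γ] (i : Fin 6 → Γ) (hi : ∀ k, i k * i k = 1) :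
    ∃ (K : Type) (_ : Group K) (p q : K), p ^ 4 = 1 ∧ q ^ 2 = 1 ∧
      ∀ W : ℕ → K, (∀ k, W k = (q * p) ^ k * p ^ 2 * ((q * p) ^ k)⁻¹) →
      ∀ (m : ℕ) (w : FreeGroup (Fin m)),
        ev (W 1 * W 3) (W 7 * W 11) (W 8 * W 10) w = 1 ↔
          ev (i 0 * i 1) (i 2 * i 3) (i 4 * i 5) w = 1 := by
  let ι : ℕ → Γ := fun n => if n = 1 then i 0 else if n = 3 then i 1 else if n = 7 then i 2
    else if n = 11 then i 3 else if n = 8 then i 4 else if n = 10 then i 5 else 1
  have hι : ∀ n, ι n * ι n = 1 := by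
    intro n
    simp only [ι]
    split_ifs <;> simp [hi]
  have hι1 : ∀ n, ι n = 1 ∨ n = 1 ∨ n = 3 ∨ n = 7 ∨ n = 11 ∨ n = 8 ∨ n = 10 := by
    intro n
    simp only [ι]
    split_ifs <;> simp [*]
  let c : ℕ → Γ := fun n => Nat.rec 1 (fun k x => ι (k + 1) * x) n
  have c0 : c 0 = 1 := rfl
  have cs : ∀ n, c (n + 1) = ι (n + 1) * c n := fun n => rfl
  let χ : ℤ → Γ := fun n => match n with
    | .ofNat n => c n
    | .negSucc n => (c n)⁻¹
  let I : ℤ → Γ := fun n => χ n * χ (-n)
  have I0 : I 0 = 1 := by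
    change c 0 * c 0 = 1
    rw [c0, mul_one]
  have Ip : ∀ n : ℕ, I (n + 1 : ℕ) = ι (n + 1) := fun n => by
    change c (n + 1) * (c n)⁻¹ = _
    rw [cs, mul_inv_cancel_right]
  have In : ∀ n : ℕ, I (.negSucc n) = (c n)⁻¹ * ι (n + 1) * c n := fun n => by
    change (c n)⁻¹ * c (n + 1) = _
    rw [cs, mul_assoc]
  have II : ∀ n, I n * I n = 1 := by
    rintro ((_ | n) | n)
    · change I 0 * I 0 = 1
      rw [I0, mul_one]
    · exact (congrArg₂ (· * ·) (Ip n) (Ip n)).trans (hι _)
    · rw [In]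
      calc _ = (c n)⁻¹ * (ι (n + 1) * ι (n + 1)) * c n := by group
        _ = 1 := by rw [hι]; group
  have I1 : ∀ n, I n = 1 ∨ n.natAbs = 1 ∨ n.natAbs = 3 ∨ n.natAbs = 7 ∨ n.natAbs = 11 ∨
      n.natAbs = 8 ∨ n.natAbs = 10 := by
    rintro ((_ | n) | n)
    · exact Or.inl I0
    · exact (hι1 (n + 1)).imp_left (fun h => (Ip n).trans h)
    · exact (hι1 (n + 1)).imp_left (fun h => by rw [In, h]; group)
  let N : Equiv.Perm ℤ := Equiv.neg ℤ
  let M : Equiv.Perm ℤ := Equiv.subLeft (-1)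
  have hM : ∀ n, M.symm n = -1 - n := fun n => by simp [M]; ring
  have hχ : ∀ n, χ n * χ (-1 - n) = 1 := by
    rintro (n | n)
    · have : -1 - Int.ofNat n = .negSucc n := by rw [Int.negSucc_eq]; simp; ring
      rw [this]
      exact mul_inv_cancel _
    · have : -1 - Int.negSucc n = .ofNat n := by rw [Int.negSucc_eq]; simp
      rw [this]
      exact inv_mul_cancel _
  have hp : (fib χ * top N : Wr ℤ Γ) ^ 2 = fib I := by
    rw [pow_two, fib_top_mul]
    have : N * N = 1 := by ext n; simp [N]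
    rw [this, map_one, mul_one]
    rfl
  have hqp : (fib χ * top M : Wr ℤ Γ) * (fib χ * top N) = top (M * N) := by
    rw [fib_top_mul]
    simp only [hM, hχ]
    exact (congrArg (· * top (M * N)) (map_one fib)).trans (one_mul _)
  have hT : ∀ (k : ℕ) (n : ℤ), ((M * N) ^ k).symm n = n + k := by
    intro k
    induction k with
    | zero => intro n; rw [pow_zero, Nat.cast_zero, add_zero]; rfl
    | succ k ih =>
      intro n
      rw [Equiv.symm_apply_eq, pow_succ, Equiv.Perm.mul_apply, ← Equiv.symm_apply_eq, ih]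
      simp [M, N]
      ring
  refine ⟨Wr ℤ Γ, inferInstance, fib χ * top N, fib χ * top M, ?_, ?_, ?_⟩
  · rw [show (4 : ℕ) = 2 * 2 from rfl, pow_mul, hp, pow_two, ← map_mul, ← map_one fib]
    congr 1
    exact funext II
  · rw [pow_two, fib_top_mul]
    have : M * M = 1 := by ext n; simp [M]
    simp only [this, hM, hχ, map_one, mul_one]
    exact map_one fib
  · intro W hW m w
    have hW' : ∀ k : ℕ, W k = fib (fun n => I (n + k)) := by
      intro k
      rw [hW, hqp, hp, ← map_pow, top_conj]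
      simp only [hT]
    simp only [hW', ← map_mul]
    rw [ev_fib _ _ _ 0]
    · simp only [Pi.mul_apply, zero_add]
      have e1 : I (1 : ℕ) = i 0 := Ip 0
      have e2 : I (3 : ℕ) = i 1 := Ip 2
      have e3 : I (7 : ℕ) = i 2 := Ip 6
      have e4 : I (11 : ℕ) = i 3 := Ip 10
      have e5 : I (8 : ℕ) = i 4 := Ip 7
      have e6 : I (10 : ℕ) = i 5 := Ip 9
      rw [e1, e2, e3, e4, e5, e6]
    · intro n hn
      simp only [Pi.mul_apply]
      by_contra hc
      simp only [not_or] at hc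
      obtain ⟨h1, h2, h3⟩ := hc
      have key : ∀ a b : ℤ, ¬ I a * I b = 1 → (a.natAbs = 1 ∨ a.natAbs = 3 ∨ a.natAbs = 7 ∨
          a.natAbs = 11 ∨ a.natAbs = 8 ∨ a.natAbs = 10) ∨ (b.natAbs = 1 ∨ b.natAbs = 3 ∨
          b.natAbs = 7 ∨ b.natAbs = 11 ∨ b.natAbs = 8 ∨ b.natAbs = 10) := by
        intro a b hab
        rcases I1 a with ha | ha
        · rcases I1 b with hb | hb
          · exact (hab (by rw [ha, hb, mul_one])).elim
          · exact Or.inr hb
        · exact Or.inl ha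
      have k1 := key _ _ h1
      have k2 := key _ _ h2
      have k3 := key _ _ h3
      have hb : -15 ≤ n ∧ n ≤ 15 := by omega
      obtain ⟨hb1, hb2⟩ := hb
      clear h1 h2 h3
      interval_cases n <;> simp at hn k1 k2 k3

theorem ev_mem_commutator {G : Type} [Group G] {m : ℕ} (X Y Z : G) (w : FreeGroup (Fin m)) :
    ev X Y Z w ∈ commutator G := by
  induction w using FreeGroup.induction_on with
  | C1 => simp
  | of j =>
    rw [ev, FreeGroup.lift_apply_of, uw, cm]
    have := Subgroup.commutator_mem_commutator (mem_top (cm X (Y ^ ((j : ℕ) + 1)))⁻¹) (mem_top Z⁻¹)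
    rwa [commutatorElement_def, inv_inv, inv_inv] at this
  | inv_of i ih => rw [map_inv]; exact inv_mem ih
  | mul x y hx hy => rw [map_mul]; exact mul_mem hx hy

theorem exists_label {G : Type} [Group G] (s t z : G) :
    ∃ (H : Type) (_ : Group H) (l β : H) (X Y Z : FreeGroup (Fin 2)), l ^ 4 = 1 ∧ β ^ 2 = 1 ∧
      ∀ (m : ℕ) (w : FreeGroup (Fin m)),
        FreeGroup.lift ![l⁻¹, lq l β] (ev X Y Z w) = 1 ↔ ev s t z w = 1 := by
  obtain ⟨Γ, _, i, hi, h1⟩ := layer_inv s t z
  obtain ⟨K, _, p, q, hp, hq, h2⟩ := layer_shift i hi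
  let A : FreeGroup (Fin 2) := (FreeGroup.of 0)⁻¹
  let B : FreeGroup (Fin 2) := FreeGroup.of 1
  let W : ℕ → FreeGroup (Fin 2) := fun k => (B * A) ^ k * A ^ 2 * ((B * A) ^ k)⁻¹
  let l : Wr (Fin 2) K := fib ![p, q]
  let β : Wr (Fin 2) K := top (Equiv.swap 0 1)
  have hβ : β * β = 1 := by
    rw [← map_mul, Equiv.swap_mul_self, map_one]
  have hβl : β * l * β = fib ![q, p] := by
    have : β = β⁻¹ := eq_inv_of_mul_eq_one_left hβ
    have e0 : β * l * β = β⁻¹ * l * β := by rw [← this]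
    rw [e0, top_inv_conj]
    congr 1
    funext ω
    fin_cases ω <;> simp
  let ψ : FreeGroup (Fin 2) →* Wr (Fin 2) K := FreeGroup.lift ![l⁻¹, β * l * β]
  have e : FreeGroup.lift ![l⁻¹, lq l β] = (MulAut.conj l).toMonoidHom.comp ψ := by
    ext1 j
    fin_cases j <;> simp [ψ, lq, mul_assoc]
  have hA : ψ A = fib ![p, q] := by simp [ψ, A, l]
  have hB : ψ B = fib ![q, p] := by simp [ψ, B, hβl]
  have hW : ∀ k, ψ (W k) = fib ![(q * p) ^ k * p ^ 2 * ((q * p) ^ k)⁻¹, 1] := by
    intro k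
    simp only [W, map_mul ψ, map_inv ψ, map_pow ψ, hA, hB]
    simp only [← map_mul, ← map_inv, ← map_pow]
    congr 1
    funext ω
    fin_cases ω <;> simp [hq]
  refine ⟨Wr (Fin 2) K, inferInstance, l, β, W 1 * W 3, W 7 * W 11, W 8 * W 10, ?_,
    by rw [pow_two, hβ], fun m w => ?_⟩
  · rw [← map_pow, ← map_one fib]
    congr 1
    funext ω
    have : q ^ 4 = 1 := by rw [show (4 : ℕ) = 2 * 2 from rfl, pow_mul, hq, one_pow]
    fin_cases ω <;> simp [hp, this]
  · rw [e, MonoidHom.comp_apply, MulEquiv.coe_toMonoidHom, MulEquiv.map_eq_one_iff, map_ev]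
    simp only [map_mul ψ, hW]
    simp only [← map_mul]
    rw [ev_fib _ _ _ 0 (fun ω hω => by fin_cases ω <;> simp at hω ⊢), ← h1]
    exact h2 (fun k => (q * p) ^ k * p ^ 2 * ((q * p) ^ k)⁻¹) (fun _ => rfl) m w

end Pool.Agent.Work.MP_f66739_al
end

-- merged part: Pool.Agent.Work.MP_f66739_al.Boone
section
set_option autoImplicit false

namespace Pool.Agent.Work.MP_f66739_al

open Subgroup Function

/-- An affine rewriting rule on configurations `(state, integer vector)`. -/
structure Rule (S K : Type) where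
  s : S
  s' : S
  k : K
  α : ℤ
  β : ℤ
  d : ℤ
  e : ℤ
  hα : α ≠ 0
  hβ : β ≠ 0

variable {S K I : Type} [DecidableEq K]

/-- One application of a rule. -/
def Rel (ru : I → Rule S K) (c c' : S × (K → ℤ)) : Prop :=
  ∃ (i : I) (w : ℤ) (z : K → ℤ),
    c = ((ru i).s, update z (ru i).k ((ru i).d + (ru i).α * w)) ∧
    c' = ((ru i).s', update z (ru i).k ((ru i).e + (ru i).β * w))

/-- The defining relations. -/
structure Sat {G : Type} [Group G] (ru : I → Rule S K) (h : S)
    (x : K → G) (t : S → G) (r : I → G) (κ : G) : Prop where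
  xx : ∀ j k, x j * x k = x k * x j
  rx : ∀ i, r i * x (ru i).k ^ (ru i).α * (r i)⁻¹ = x (ru i).k ^ (ru i).β
  rx' : ∀ i j, j ≠ (ru i).k → r i * x j = x j * r i
  rt : ∀ i, r i * (x (ru i).k ^ (ru i).d * t (ru i).s * (x (ru i).k ^ (ru i).d)⁻¹) * (r i)⁻¹ =
    x (ru i).k ^ (ru i).e * t (ru i).s' * (x (ru i).k ^ (ru i).e)⁻¹
  κr : ∀ i, κ * r i = r i * κ
  κt : κ * t h = t h * κ

section Derivation
variable [Fintype K] {G : Type} [Group G] {ru : I → Rule S K} {h : S}
    {x : K → G} {t : S → G} {r : I → G} {κ : G}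

/-- The product of the powers of the commuting elements `x k`. -/
def XP (x : K → G) (hx : ∀ j k, x j * x k = x k * x j) (z : K → ℤ) : G :=
  Finset.univ.noncommProd (fun k => x k ^ z k)
    (fun j _ k _ _ => (Commute.zpow_zpow (hx j k) _ _))

omit [DecidableEq K] in
theorem XP_add (hx : ∀ j k, x j * x k = x k * x j) (z w : K → ℤ) :
    XP x hx (z + w) = XP x hx z * XP x hx w := by
  unfold XP
  rw [← Finset.noncommProd_mul_distrib]
  · apply Finset.noncommProd_congr rfl
    intro k _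
    simp [zpow_add]
  · intro j _ k _ _
    exact Commute.zpow_zpow (hx j k) _ _

theorem XP_single (hx : ∀ j k, x j * x k = x k * x j) (k : K) (n : ℤ) :
    XP x hx (Pi.single k n) = x k ^ n := by
  unfold XP
  rw [← Finset.mul_noncommProd_erase _ (Finset.mem_univ k)]
  rw [Finset.noncommProd_eq_pow_card _ _ _ 1]
  · simp
  · intro j hj
    simp [Pi.single_eq_of_ne (Finset.ne_of_mem_erase hj)]

omit [DecidableEq K] in
theorem XP_commute (hx : ∀ j k, x j * x k = x k * x j) (y : G) (z : K → ℤ)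
    (hy : ∀ k, Commute y (x k ^ z k)) : Commute y (XP x hx z) :=
  Finset.noncommProd_commute _ _ _ _ (fun k _ => hy k)

omit [Fintype K] in
theorem update_eq_add (z : K → ℤ) (k : K) (n : ℤ) :
    update z k n = update z k 0 + Pi.single k n := by
  funext j
  by_cases hj : j = k
  · subst hj; simp
  · simp [hj]

theorem Sat.step (H : Sat ru h x t r κ) {c c' : S × (K → ℤ)} (hc : Rel ru c c') :
    ∃ i, r i * (XP x H.xx c.2 * t c.1 * (XP x H.xx c.2)⁻¹) * (r i)⁻¹ =
      XP x H.xx c'.2 * t c'.1 * (XP x H.xx c'.2)⁻¹ := by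
  obtain ⟨i, w, z, rfl, rfl⟩ := hc
  refine ⟨i, ?_⟩
  simp only
  rw [update_eq_add z _ ((ru i).d + _), update_eq_add z _ ((ru i).e + _), XP_add, XP_add,
    XP_single, XP_single, add_comm (ru i).d, add_comm (ru i).e, zpow_add, zpow_add, zpow_mul,
    zpow_mul, ← H.rx i, conj_zpow]
  have h1 : Commute (r i) (XP x H.xx (update z (ru i).k 0)) := by
    apply XP_commute
    intro k
    by_cases hk : k = (ru i).k
    · subst hk; simp
    · exact Commute.zpow_right (H.rx' i k hk) _
  generalize XP x H.xx (update z (ru i).k 0) = U at h1 ⊢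
  have h2 := H.rt i
  generalize (x (ru i).k ^ (ru i).α) ^ w = A at h2 ⊢
  generalize x (ru i).k ^ (ru i).d = B at h2 ⊢
  generalize x (ru i).k ^ (ru i).e = B' at h2 ⊢
  have h3 : U = r i * U * (r i)⁻¹ := by rw [h1.eq]; group
  calc _ = (r i * U * (r i)⁻¹) * (r i * A * (r i)⁻¹) *
        (r i * (B * t (ru i).s * B⁻¹) * (r i)⁻¹) * (r i * A * (r i)⁻¹)⁻¹ *
        (r i * U * (r i)⁻¹)⁻¹ := by group
    _ = _ := by rw [h2, ← h3]; group

theorem Sat.eqv (H : Sat ru h x t r κ) {c c' : S × (K → ℤ)} (hc : Relation.EqvGen (Rel ru) c c') :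
    Commute κ (XP x H.xx c.2 * t c.1 * (XP x H.xx c.2)⁻¹) ↔
      Commute κ (XP x H.xx c'.2 * t c'.1 * (XP x H.xx c'.2)⁻¹) := by
  induction hc with
  | rel a b hab =>
    obtain ⟨i, hi⟩ := H.step hab
    rw [← hi]
    have h1 : Commute κ (r i) := H.κr i
    constructor
    · intro h2
      exact (h1.mul_right h2).mul_right h1.inv_right
    · intro h2
      have := (h1.inv_right.mul_right h2).mul_right h1
      simpa [mul_assoc] using this
  | refl => rfl
  | symm _ _ _ ih => exact ih.symm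
  | trans _ _ _ _ _ ih1 ih2 => exact ih1.trans ih2

theorem Sat.commute (H : Sat ru h x t r κ) {s : S} {k : K} {n : ℤ}
    (hc : Relation.EqvGen (Rel ru) (s, Pi.single k n) (h, 0)) :
    Commute κ (x k ^ n * t s * (x k ^ n)⁻¹) := by
  have := (H.eqv hc).2 (by
    have h0 : XP x H.xx 0 = 1 := by
      have := XP_single H.xx k 0
      simpa using this
    simp only [h0, one_mul, inv_one, mul_one]
    exact H.κt)
  simpa only [XP_single] using this

end Derivation

section Model
open Classical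

/-- Points of the model. -/
abbrev Pt (S K : Type) : Type := (S × (K → ℚ)) × ((S × (K → ℚ)) → Prop)

/-- Translations of the model. -/
def trl (S : Type) {K : Type} : Multiplicative (K → ℚ) →* Equiv.Perm (Pt S K) where
  toFun u := Equiv.prodCongr (Equiv.prodCongr (Equiv.refl S) (Equiv.addRight u.toAdd))
    (Equiv.refl _)
  map_one' := by ext1 ⟨⟨s, z⟩, γ⟩; simp
  map_mul' u v := by ext1 ⟨⟨s, z⟩, γ⟩; simp [add_comm, add_left_comm]

omit [DecidableEq K] in
theorem trl_apply (u : K → ℚ) (s : S) (z : K → ℚ) (γ : (S × (K → ℚ)) → Prop) :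
    trl S (Multiplicative.ofAdd u) ((s, z), γ) = ((s, z + u), γ) := rfl

/-- The affine bijection attached to a rule. -/
noncomputable def psi (ρ : Rule S K) : Equiv.Perm (S × (K → ℚ)) where
  toFun ζ := (Equiv.swap ρ.s ρ.s' ζ.1, update ζ.2 ρ.k (ρ.e + ρ.β * (ζ.2 ρ.k - ρ.d) / ρ.α))
  invFun ζ := (Equiv.swap ρ.s ρ.s' ζ.1, update ζ.2 ρ.k (ρ.d + ρ.α * (ζ.2 ρ.k - ρ.e) / ρ.β))
  left_inv := by
    rintro ⟨s, z⟩
    have h1 : (ρ.α : ℚ) ≠ 0 := by exact_mod_cast ρ.hα
    have h2 : (ρ.β : ℚ) ≠ 0 := by exact_mod_cast ρ.hβ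
    simp only [Equiv.swap_apply_self, update_self, update_idem, Prod.mk.injEq, true_and]
    rw [update_eq_self_iff]
    field_simp
    ring
  right_inv := by
    rintro ⟨s, z⟩
    have h1 : (ρ.α : ℚ) ≠ 0 := by exact_mod_cast ρ.hα
    have h2 : (ρ.β : ℚ) ≠ 0 := by exact_mod_cast ρ.hβ
    simp only [Equiv.swap_apply_self, update_self, update_idem, Prod.mk.injEq, true_and]
    rw [update_eq_self_iff]
    field_simp
    ring

/-- The domain of a rule. -/
def Dom (ρ : Rule S K) (ζ : S × (K → ℚ)) : Prop :=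
  ζ.1 = ρ.s ∧ ∃ (w : ℤ) (z : K → ℤ), ζ.2 = fun j => ((update z ρ.k (ρ.d + ρ.α * w) j : ℤ) : ℚ)

/-- The permutation of the model attached to a rule. -/
noncomputable def rho (ρ : Rule S K) (γ₀ : (S × (K → ℚ)) → Prop) : Equiv.Perm (Pt S K) :=
  Equiv.prodShear (psi ρ) (fun ζ =>
    (Equiv.arrowCongr (psi ρ) (Equiv.refl Prop)).trans
      (if Dom ρ ζ then Equiv.swap γ₀ (fun η => γ₀ ((psi ρ).symm η)) else Equiv.refl _))

theorem rho_apply (ρ : Rule S K) (γ₀ : (S × (K → ℚ)) → Prop) (ζ : S × (K → ℚ))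
    (γ : (S × (K → ℚ)) → Prop) :
    rho ρ γ₀ (ζ, γ) = (psi ρ ζ,
      (if Dom ρ ζ then Equiv.swap γ₀ (fun η => γ₀ ((psi ρ).symm η)) else Equiv.refl _)
        (fun η => γ ((psi ρ).symm η))) := rfl

theorem rho_colour (ρ : Rule S K) (γ₀ : (S × (K → ℚ)) → Prop)
    (hγ : ∀ ζ, Dom ρ ζ → (γ₀ (psi ρ ζ) ↔ γ₀ ζ)) (ω : Pt S K) :
    (rho ρ γ₀ ω).2 (rho ρ γ₀ ω).1 ↔ ω.2 ω.1 := by
  obtain ⟨ζ, γ⟩ := ω
  rw [rho_apply]
  simp only
  split_ifs with hD
  · have := hγ ζ hD
    rw [Equiv.swap_apply_def]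
    split_ifs with h1 h2
    · have h3 := congrFun h1 (psi ρ ζ)
      simp only [Equiv.symm_apply_apply] at h3 ⊢
      rw [h3, this]
    · have h3 := congrFun h2 (psi ρ ζ)
      simp only [Equiv.symm_apply_apply] at h3 ⊢
      rw [h3, this]
    · simp
  · simp

theorem rho_trl (ρ : Rule S K) (γ₀ : (S × (K → ℚ)) → Prop) (u u' : K → ℚ)
    (h1 : ∀ s z, psi ρ (s, z + u) = ((psi ρ (s, z)).1, (psi ρ (s, z)).2 + u'))
    (h2 : ∀ s z, Dom ρ (s, z + u) ↔ Dom ρ (s, z)) :
    rho ρ γ₀ * trl S (Multiplicative.ofAdd u) = trl S (Multiplicative.ofAdd u') * rho ρ γ₀ := by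
  ext1 ⟨⟨s, z⟩, γ⟩
  rw [Equiv.Perm.mul_apply, Equiv.Perm.mul_apply, trl_apply, rho_apply, rho_apply, h1, h2]
  rfl

theorem top_conj_single {Ω H : Type} [DecidableEq Ω] [Group H] (π : Equiv.Perm Ω) (p : Ω) (τ : H) :
    top π * fib (Pi.mulSingle p τ) * (top π)⁻¹ = (fib (Pi.mulSingle (π p) τ) : Wr Ω H) := by
  rw [top_conj]
  congr 1
  funext ω
  by_cases h : ω = π p
  · subst h; simp
  · have : π.symm ω ≠ p := fun h' => h (by rw [← h']; simp)
    simp [h, this]

/-- The colouring by the class of the halting configuration. -/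
def col (ru : I → Rule S K) (h : S) (ζ : S × (K → ℚ)) : Prop :=
  ∃ z : K → ℤ, ζ.2 = (fun j => (z j : ℚ)) ∧ Relation.EqvGen (Rel ru) (ζ.1, z) (h, 0)

theorem col_cast (ru : I → Rule S K) (h s : S) (z : K → ℤ) :
    col ru h (s, fun j => (z j : ℚ)) ↔ Relation.EqvGen (Rel ru) (s, z) (h, 0) := by
  constructor
  · rintro ⟨z', h1, h2⟩
    have : z = z' := by
      funext j
      have := congrFun h1 j
      simp only at this
      exact_mod_cast this
    rw [this]; exact h2
  · intro h1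
    exact ⟨z, rfl, h1⟩

theorem psi_dom (ρ : Rule S K) (w : ℤ) (z : K → ℤ) :
    psi ρ (ρ.s, fun j => ((update z ρ.k (ρ.d + ρ.α * w) j : ℤ) : ℚ)) =
      (ρ.s', fun j => ((update z ρ.k (ρ.e + ρ.β * w) j : ℤ) : ℚ)) := by
  have h1 : (ρ.α : ℚ) ≠ 0 := by exact_mod_cast ρ.hα
  simp only [psi, Equiv.coe_fn_mk, Equiv.swap_apply_left, update_self, Prod.mk.injEq, true_and]
  funext j
  by_cases hj : j = ρ.k
  · subst hj
    simp only [update_self]
    push_cast
    field_simp
    ring
  · simp [hj]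

theorem col_psi (ru : I → Rule S K) (h : S) (i : I) (ζ : S × (K → ℚ)) (hζ : Dom (ru i) ζ) :
    col ru h (psi (ru i) ζ) ↔ col ru h ζ := by
  obtain ⟨s, y⟩ := ζ
  obtain ⟨h1, w, z, h2⟩ := hζ
  simp only at h1 h2
  subst h1 h2
  rw [psi_dom, col_cast, col_cast]
  have : Relation.EqvGen (Rel ru) _ _ := Relation.EqvGen.rel _ _ ⟨i, w, z, rfl, rfl⟩
  exact ⟨fun h3 => this.trans _ _ _ h3, fun h3 => (this.symm _ _).trans _ _ _ h3⟩

theorem dom_add (ρ : Rule S K) (u : K → ℤ) (m : ℤ) (hu : u ρ.k = ρ.α * m) (s : S) (y : K → ℚ)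
    (h : Dom ρ (s, y)) : Dom ρ (s, y + fun j => (u j : ℚ)) := by
  obtain ⟨h1, w, z, h2⟩ := h
  refine ⟨h1, w + m, z + u, ?_⟩
  simp only at h2 ⊢
  subst h2
  funext j
  by_cases hj : j = ρ.k
  · subst hj; simp [hu]; ring
  · simp [hj]

theorem dom_add_iff (ρ : Rule S K) (j : K) (n m : ℤ) (hu : (Pi.single j n : K → ℤ) ρ.k = ρ.α * m)
    (s : S) (y : K → ℚ) : Dom ρ (s, y + Pi.single j (n : ℚ)) ↔ Dom ρ (s, y) := by
  have e : (Pi.single j (n : ℚ) : K → ℚ) = fun l => (((Pi.single j n : K → ℤ) l : ℤ) : ℚ) := by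
    funext l
    by_cases hl : l = j
    · subst hl; simp
    · simp [hl]
  rw [e]
  constructor
  · intro h
    have := dom_add ρ (-Pi.single j n) (-m) (by simp [hu]) s _ h
    convert this using 2
    funext l
    simp
  · exact dom_add ρ _ m hu s y

theorem exists_model (ru : I → Rule S K) (h : S) :
    ∃ (G : Type) (_ : Group G) (x : K → G) (t : S → G) (r : I → G) (κ : G),
      Sat ru h x t r κ ∧ ∀ (s : S) (k : K) (n : ℤ), Commute κ (x k ^ n * t s * (x k ^ n)⁻¹) →
        Relation.EqvGen (Rel ru) (s, Pi.single k n) (h, 0) := by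
  let τ : Equiv.Perm (Fin 3) := Equiv.swap 0 1
  let κ₀ : Equiv.Perm (Fin 3) := Equiv.swap 1 2
  have hτ : κ₀ * τ ≠ τ * κ₀ := by decide
  let x : K → Wr (Pt S K) (Equiv.Perm (Fin 3)) :=
    fun k => top (trl S (Multiplicative.ofAdd (Pi.single k 1)))
  let t : S → Wr (Pt S K) (Equiv.Perm (Fin 3)) :=
    fun s => fib (Pi.mulSingle ((s, 0), col ru h) τ)
  have hx : ∀ k (n : ℤ), x k ^ n = top (trl S (Multiplicative.ofAdd (Pi.single k (n : ℚ)))) := by
    intro k n
    simp only [x]
    rw [← map_zpow, ← map_zpow, ← ofAdd_zsmul]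
    congr 3
    funext l
    by_cases hl : l = k
    · subst hl; simp
    · simp [hl]
  have hxt : ∀ k (n : ℤ) s, x k ^ n * t s * (x k ^ n)⁻¹ =
      fib (Pi.mulSingle ((s, Pi.single k (n : ℚ)), col ru h) τ) := by
    intro k n s
    simp only [t]
    rw [hx, top_conj_single, trl_apply, zero_add]
  have hcast : ∀ (k : K) (n : ℤ), (Pi.single k (n : ℚ) : K → ℚ) =
      fun l => (((Pi.single k n : K → ℤ) l : ℤ) : ℚ) := by
    intro k n
    funext l
    by_cases hl : l = k
    · subst hl; simp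
    · simp [hl]
  refine ⟨Wr (Pt S K) (Equiv.Perm (Fin 3)), inferInstance, x, t,
    fun i => top (rho (ru i) (col ru h)),
    fib (fun ω => if ω.2 ω.1 then 1 else κ₀), ⟨?_, ?_, ?_, ?_, ?_, ?_⟩, ?_⟩
  · intro j k
    simp only [x]
    rw [← map_mul top, ← map_mul top, ← map_mul (trl S), ← map_mul (trl S), mul_comm]
  · intro i
    rw [hx, hx, mul_inv_eq_iff_eq_mul, ← map_mul, ← map_mul, rho_trl]
    · intro s z
      have h1 : ((ru i).α : ℚ) ≠ 0 := by exact_mod_cast (ru i).hα
      simp only [psi, Equiv.coe_fn_mk, Prod.mk.injEq, true_and]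
      funext l
      by_cases hl : l = (ru i).k
      · subst hl
        simp only [update_self, Pi.add_apply, Pi.single_eq_same]
        field_simp
        ring
      · simp [hl]
    · exact dom_add_iff _ _ _ 1 (by simp)
  · intro i j hj
    simp only [x]
    rw [← map_mul, ← map_mul, rho_trl]
    · intro s z
      simp only [psi, Equiv.coe_fn_mk, Prod.mk.injEq, true_and]
      funext l
      by_cases hl : l = (ru i).k
      · subst hl
        simp [hj.symm]
      · simp [hl]
    · have := dom_add_iff (ru i) j 1 0 (by simp [hj.symm])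
      simpa using this
  · intro i
    rw [hxt, hxt, top_conj_single, rho_apply]
    have e1 : (Pi.single (ru i).k ((ru i).d : ℚ) : K → ℚ) =
        fun j => ((update (0 : K → ℤ) (ru i).k ((ru i).d + (ru i).α * 0) j : ℤ) : ℚ) := by
      rw [hcast]; simp [Pi.single]
    have e2 : (Pi.single (ru i).k ((ru i).e : ℚ) : K → ℚ) =
        fun j => ((update (0 : K → ℤ) (ru i).k ((ru i).e + (ru i).β * 0) j : ℤ) : ℚ) := by
      rw [hcast]; simp [Pi.single]
    rw [if_pos ⟨rfl, 0, 0, e1⟩, Equiv.swap_apply_right, e1, e2, psi_dom]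
  · intro i
    rw [← inv_mul_eq_iff_eq_mul, ← mul_assoc, top_inv_conj]
    congr 1
    funext ω
    simp only [rho_colour (ru i) (col ru h) (col_psi ru h i) ω]
  · simp only [t]
    rw [← map_mul, ← map_mul]
    congr 1
    funext ω
    by_cases hω : ω = ((h, 0), col ru h)
    · subst hω
      have : col ru h (h, 0) := ⟨0, by funext j; simp, Relation.EqvGen.refl _⟩
      simp [this]
    · simp [hω]
  · intro s k n hc
    rw [hxt] at hc
    by_contra hn
    have h1 := hc.eq
    rw [← map_mul, ← map_mul] at h1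
    have h2 := congrFun (fib_injective h1) ((s, Pi.single k (n : ℚ)), col ru h)
    have h3 : ¬ col ru h (s, Pi.single k (n : ℚ)) := by rw [hcast, col_cast]; exact hn
    simp only [Pi.mul_apply, h3, if_false, Pi.mulSingle_eq_same] at h2
    exact hτ h2

end Model

section Pres

/-- The relators, as elements of an arbitrary group. -/
def relF {G : Type} [Group G] (ru : I → Rule S K) (h : S)
    (x : K → G) (t : S → G) (r : I → G) (κ : G) :
    (K × K) ⊕ I ⊕ (I × K) ⊕ I ⊕ I ⊕ Unit → G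
  | Sum.inl (j, k) => x j * x k * (x k * x j)⁻¹
  | Sum.inr (Sum.inl i) => r i * x (ru i).k ^ (ru i).α * (r i)⁻¹ * (x (ru i).k ^ (ru i).β)⁻¹
  | Sum.inr (Sum.inr (Sum.inl (i, j))) =>
      if j = (ru i).k then 1 else r i * x j * (x j * r i)⁻¹
  | Sum.inr (Sum.inr (Sum.inr (Sum.inl i))) =>
      r i * (x (ru i).k ^ (ru i).d * t (ru i).s * (x (ru i).k ^ (ru i).d)⁻¹) * (r i)⁻¹ *
        (x (ru i).k ^ (ru i).e * t (ru i).s' * (x (ru i).k ^ (ru i).e)⁻¹)⁻¹
  | Sum.inr (Sum.inr (Sum.inr (Sum.inr (Sum.inl i)))) => κ * r i * (r i * κ)⁻¹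
  | Sum.inr (Sum.inr (Sum.inr (Sum.inr (Sum.inr _)))) => κ * t h * (t h * κ)⁻¹

theorem map_relF {G G' : Type} [Group G] [Group G'] (φ : G →* G') (ru : I → Rule S K) (h : S)
    (x : K → G) (t : S → G) (r : I → G) (κ : G) (j) :
    φ (relF ru h x t r κ j) =
      relF ru h (fun k => φ (x k)) (fun s => φ (t s)) (fun i => φ (r i)) (φ κ) j := by
  rcases j with ⟨j, k⟩ | i | ⟨i, j⟩ | i | i | i
  · simp [relF]
  · simp [relF]
  · simp only [relF]; split_ifs <;> simp
  · simp [relF]
  · simp [relF]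
  · simp [relF]

theorem sat_iff {G : Type} [Group G] (ru : I → Rule S K) (h : S)
    (x : K → G) (t : S → G) (r : I → G) (κ : G) :
    Sat ru h x t r κ ↔ ∀ j, relF ru h x t r κ j = 1 := by
  constructor
  · intro H j
    rcases j with ⟨j, k⟩ | i | ⟨i, j⟩ | i | i | i
    · simp only [relF]; rw [H.xx, mul_inv_cancel]
    · simp only [relF]; rw [H.rx, mul_inv_cancel]
    · simp only [relF]
      split_ifs with hj
      · rfl
      · rw [H.rx' i j hj, mul_inv_cancel]
    · simp only [relF]; rw [H.rt, mul_inv_cancel]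
    · simp only [relF]; rw [H.κr, mul_inv_cancel]
    · simp only [relF]; rw [H.κt, mul_inv_cancel]
  · intro H
    refine ⟨fun j k => mul_inv_eq_one.1 (H (Sum.inl (j, k))),
      fun i => mul_inv_eq_one.1 (H (Sum.inr (Sum.inl i))), fun i j hj => ?_,
      fun i => mul_inv_eq_one.1 (H (Sum.inr (Sum.inr (Sum.inr (Sum.inl i))))),
      fun i => mul_inv_eq_one.1 (H (Sum.inr (Sum.inr (Sum.inr (Sum.inr (Sum.inl i)))))),
      mul_inv_eq_one.1 (H (Sum.inr (Sum.inr (Sum.inr (Sum.inr (Sum.inr ()))))))⟩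
    have := H (Sum.inr (Sum.inr (Sum.inl (i, j))))
    simp only [relF, if_neg hj] at this
    exact mul_inv_eq_one.1 this

/-- A finite system of affine rules with an undecidable reachability problem gives a finitely
presented group with unsolvable word problem. -/
theorem boone [Finite S] [Finite K] [Finite I] (ru : I → Rule S K) (h s : S) (k : K)
    (E : ℕ → ℕ) (hE : Computable E)
    (hP : ¬ ComputablePred (fun n : ℕ =>
      Relation.EqvGen (Rel ru) (s, Pi.single k (E n : ℤ)) (h, 0))) :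
    ∃ (m l : ℕ) (ρ : Fin l → FreeGroup (Fin m)), Unsolv (Set.range ρ) := by
  classical
  have := Fintype.ofFinite K
  obtain ⟨m, ⟨e⟩⟩ := Finite.exists_equiv_fin (K ⊕ S ⊕ I ⊕ Unit)
  obtain ⟨l, ⟨f⟩⟩ := Finite.exists_equiv_fin ((K × K) ⊕ I ⊕ (I × K) ⊕ I ⊕ I ⊕ Unit)
  let x : K → FreeGroup (Fin m) := fun k => FreeGroup.of (e (Sum.inl k))
  let t : S → FreeGroup (Fin m) := fun s => FreeGroup.of (e (Sum.inr (Sum.inl s)))
  let r : I → FreeGroup (Fin m) := fun i => FreeGroup.of (e (Sum.inr (Sum.inr (Sum.inl i))))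
  let κ : FreeGroup (Fin m) := FreeGroup.of (e (Sum.inr (Sum.inr (Sum.inr ()))))
  refine ⟨m, l, fun j => relF ru h x t r κ (f.symm j), ?_⟩
  have hfam : CompFam (fun n : ℕ => κ * (x k ^ E n * t s * (x k ^ E n)⁻¹) *
      ((x k ^ E n * t s * (x k ^ E n)⁻¹) * κ)⁻¹) := by
    have h1 : CompFam (fun n : ℕ => x k ^ E n * t s * (x k ^ E n)⁻¹) :=
      ((CompFam.pow _ hE).mul (CompFam.const _)).mul (CompFam.pow _ hE).inv
    exact ((CompFam.const _).mul h1).mul (h1.mul (CompFam.const _)).inv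
  refine Unsolv.of_fam hP _ hfam (fun n => ⟨fun hn => ?_, fun hn => ?_⟩)
  · rw [mem_normalClosure_iff]
    set R := Set.range (fun j => relF ru h x t r κ (f.symm j)) with hR
    have H : Sat ru h (fun k => PresentedGroup.mk R (x k)) (fun s => PresentedGroup.mk R (t s))
        (fun i => PresentedGroup.mk R (r i)) (PresentedGroup.mk R κ) := by
      rw [sat_iff]
      intro j
      rw [← map_relF, ← mem_normalClosure_iff]
      exact subset_normalClosure ⟨f j, by simp⟩
    have := (H.commute hn).eq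
    simp only [map_mul, map_inv, map_pow, zpow_natCast] at this ⊢
    rw [this, mul_inv_cancel]
  · obtain ⟨G, _, x', t', r', κ', H, H'⟩ := exists_model ru h
    let φ : FreeGroup (Fin m) →* G := FreeGroup.lift (fun a =>
      Sum.elim x' (Sum.elim t' (Sum.elim r' (fun _ => κ'))) (e.symm a))
    have hx : ∀ k, φ (x k) = x' k := by intro k; simp [φ, x]
    have ht : ∀ k, φ (t k) = t' k := by intro k; simp [φ, t]
    have hr : ∀ k, φ (r k) = r' k := by intro k; simp [φ, r]
    have hκ : φ κ = κ' := by simp [φ, κ]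
    have := map_eq_one_of_mem φ (by
      rintro _ ⟨j, rfl⟩
      simp only [map_relF, hx, ht, hr, hκ]
      exact (sat_iff ru h _ _ _ _).1 H _) hn
    simp only [map_mul, map_inv, map_pow, hx, ht, hκ] at this
    apply H'
    rw [zpow_natCast]
    exact mul_inv_eq_one.1 this

end Pres

end Pool.Agent.Work.MP_f66739_al
end

-- merged part: Pool.Agent.Work.MP_f66739_al.Machine
section
set_option autoImplicit false

namespace Pool.Agent.Work.MP_f66739_al

open Function Turing Turing.PartrecToTM2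

/-- Statements of the stack machine. -/
abbrev St : Type := TM2.Stmt (fun _ : K' => Γ') Λ' (Option Γ')

/-- Configurations of the stack machine. -/
abbrev Cf : Type := TM2.Cfg (fun _ : K' => Γ') Λ' (Option Γ')

/-- Micro states. -/
abbrev MS : Type := Option St × Option Γ'

instance finiteK : Finite K' :=
  Finite.of_surjective (fun i : Fin 4 => (![K'.main, K'.rev, K'.aux, K'.stack] : Fin 4 → K') i)
    (by
      intro k
      cases k
      · exact ⟨0, rfl⟩
      · exact ⟨1, rfl⟩
      · exact ⟨2, rfl⟩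
      · exact ⟨3, rfl⟩)

/-- Digit of a stack letter. -/
def dig : Γ' → ℕ
  | Γ'.consₗ => 1
  | Γ'.cons => 2
  | Γ'.bit0 => 3
  | Γ'.bit1 => 4

/-- Stack letter of a digit. -/
def undig (d : ℤ) : Option Γ' :=
  if d = 1 then some Γ'.consₗ else if d = 2 then some Γ'.cons else
    if d = 3 then some Γ'.bit0 else if d = 4 then some Γ'.bit1 else none

/-- Base five code of a stack. -/
def enc : List Γ' → ℕ
  | [] => 0
  | a :: l => dig a + 5 * enc l

theorem undig_enc (l : List Γ') : undig ((enc l : ℤ) % 5) = l.head? := by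
  cases l with
  | nil => rfl
  | cons a l =>
    have : ((enc (a :: l) : ℕ) : ℤ) % 5 = dig a := by
      simp only [enc]
      cases a <;> simp only [dig] <;> omega
    rw [this]
    cases a <;> rfl

theorem enc_div (l : List Γ') : (enc l : ℤ) / 5 = enc l.tail := by
  cases l with
  | nil => rfl
  | cons a l =>
    simp only [enc, List.tail_cons]
    cases a <;> simp only [dig] <;> omega

/-- The stack used by a statement. -/
def kOf : Option St → K'
  | some (TM2.Stmt.push k _ _) => k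
  | some (TM2.Stmt.peek k _ _) => k
  | some (TM2.Stmt.pop k _ _) => k
  | _ => K'.main

/-- The multiplier used by a statement. -/
def bOf : Option St → ℤ
  | some (TM2.Stmt.push _ _ _) => 25
  | some (TM2.Stmt.pop _ _ _) => 1
  | _ => 5

/-- The offset used by a statement. -/
def eOf : Option St → Option Γ' → ℤ → ℤ
  | some (TM2.Stmt.push _ f _), v, d => dig (f v) + 5 * d
  | some (TM2.Stmt.pop _ _ _), _, _ => 0
  | _, _, d => d

/-- The next micro state. -/
def nxt : Option St → Option Γ' → ℤ → MS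
  | none, v, _ => (none, v)
  | some (TM2.Stmt.push _ _ q), v, _ => (some q, v)
  | some (TM2.Stmt.peek _ f q), v, d => (some q, f v (undig d))
  | some (TM2.Stmt.pop _ f q), v, d => (some q, f v (undig d))
  | some (TM2.Stmt.load a q), v, _ => (some q, a v)
  | some (TM2.Stmt.branch f q₁ q₂), v, _ => (some (cond (f v) q₁ q₂), v)
  | some (TM2.Stmt.goto f), v, _ => (some (tr (f v)), v)
  | some TM2.Stmt.halt, v, _ => (none, v)

theorem bOf_ne (q : Option St) : bOf q ≠ 0 := by
  rcases q with _ | q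
  · decide
  · cases q <;> simp [bOf]

/-- The numerical machine. -/
def mu (c : MS × (K' → ℤ)) : MS × (K' → ℤ) :=
  (nxt c.1.1 c.1.2 (c.2 (kOf c.1.1) % 5), update c.2 (kOf c.1.1)
    (eOf c.1.1 c.1.2 (c.2 (kOf c.1.1) % 5) + bOf c.1.1 * (c.2 (kOf c.1.1) / 5)))

/-- Codes of the stacks. -/
def encS (T : K' → List Γ') : K' → ℤ := fun k => enc (T k)

/-- Code of a configuration. -/
def toMu (c : Cf) : MS × (K' → ℤ) := ((c.l.map tr, c.var), encS c.stk)

theorem encS_update (T : K' → List Γ') (k : K') (l : List Γ') :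
    encS (update T k l) = update (encS T) k (enc l) := by
  funext j
  by_cases hj : j = k
  · subst hj; simp [encS]
  · simp [encS, hj]

theorem update_id (z : K' → ℤ) (k : K') : update z k (z k % 5 + 5 * (z k / 5)) = z := by
  rw [Int.emod_add_mul_ediv, update_eq_self]

theorem sim (q : St) : ∀ (v : Option Γ') (T : K' → List Γ'),
    ∃ m, mu^[m + 1] ((some q, v), encS T) = toMu (TM2.stepAux q v T) := by
  induction q with
  | push k f q ih =>
    intro v T
    obtain ⟨m, hm⟩ := ih v (update T k (f v :: T k))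
    refine ⟨m + 1, ?_⟩
    rw [iterate_succ_apply, TM2.stepAux, ← hm]
    congr 1
    simp only [mu, nxt, kOf, eOf, bOf, encS_update, enc]
    congr 2
    simp only [encS]
    push_cast
    omega
  | peek k f q ih =>
    intro v T
    obtain ⟨m, hm⟩ := ih (f v (T k).head?) T
    refine ⟨m + 1, ?_⟩
    rw [iterate_succ_apply, TM2.stepAux, ← hm]
    congr 1
    simp only [mu, nxt, kOf, eOf, bOf, update_id]
    simp only [encS, undig_enc]
  | pop k f q ih =>
    intro v T
    obtain ⟨m, hm⟩ := ih (f v (T k).head?) (update T k (T k).tail)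
    refine ⟨m + 1, ?_⟩
    rw [iterate_succ_apply, TM2.stepAux, ← hm]
    congr 1
    simp only [mu, nxt, kOf, eOf, bOf, encS_update]
    simp only [encS, undig_enc, enc_div, zero_add, one_mul]
  | load a q ih =>
    intro v T
    obtain ⟨m, hm⟩ := ih (a v) T
    refine ⟨m + 1, ?_⟩
    rw [iterate_succ_apply, TM2.stepAux, ← hm]
    congr 1
    simp only [mu, nxt, kOf, eOf, bOf, update_id]
  | branch f q₁ q₂ ih₁ ih₂ =>
    intro v T
    obtain ⟨m₁, hm₁⟩ := ih₁ v T
    obtain ⟨m₂, hm₂⟩ := ih₂ v T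
    rw [TM2.stepAux]
    cases hf : f v
    · refine ⟨m₂ + 1, ?_⟩
      rw [iterate_succ_apply, cond_false, ← hm₂]
      congr 1
      simp only [mu, nxt, kOf, eOf, bOf, update_id, hf, cond_false]
    · refine ⟨m₁ + 1, ?_⟩
      rw [iterate_succ_apply, cond_true, ← hm₁]
      congr 1
      simp only [mu, nxt, kOf, eOf, bOf, update_id, hf, cond_true]
  | goto f =>
    intro v T
    refine ⟨0, ?_⟩
    simp only [zero_add, iterate_one, mu, nxt, kOf, eOf, bOf, update_id, TM2.stepAux, toMu,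
      Option.map_some]
  | halt =>
    intro v T
    refine ⟨0, ?_⟩
    simp only [zero_add, iterate_one, mu, nxt, kOf, eOf, bOf, update_id, TM2.stepAux, toMu,
      Option.map_none]

theorem mu_halt (c : MS × (K' → ℤ)) (h : c.1.1 = none) : (mu c).1.1 = none := by
  simp only [mu, h, nxt]

theorem mu_iter_halt (c : MS × (K' → ℤ)) (h : c.1.1 = none) (n : ℕ) : (mu^[n] c).1.1 = none := by
  induction n with
  | zero => exact h
  | succ n ih => rw [iterate_succ_apply']; exact mu_halt _ ih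

/-- The numerical machine halts. -/
def Good (c : MS × (K' → ℤ)) : Prop := ∃ n, (mu^[n] c).1.1 = none

theorem good_mu (c : MS × (K' → ℤ)) : Good (mu c) ↔ Good c := by
  constructor
  · rintro ⟨n, hn⟩
    exact ⟨n + 1, hn⟩
  · rintro ⟨n, hn⟩
    refine ⟨n, ?_⟩
    rw [← iterate_succ_apply, iterate_succ_apply']
    exact mu_halt _ hn

theorem reaches_mu {c c' : Cf} (h : StateTransition.Reaches (TM2.step tr) c c') :
    ∃ n, mu^[n] (toMu c) = toMu c' := by
  induction h with
  | refl => exact ⟨0, rfl⟩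
  | @tail b c' _ h2 ih =>
    obtain ⟨n, hn⟩ := ih
    obtain ⟨l, v, T⟩ := b
    cases l with
    | none => simp at h2
    | some l =>
      simp only [TM2.step, Option.mem_def, Option.some.injEq] at h2
      obtain ⟨m, hm⟩ := sim (tr l) v T
      refine ⟨m + 1 + n, ?_⟩
      rw [iterate_add_apply, hn, ← h2, ← hm]
      rfl

theorem dom_of_good (n : ℕ) : ∀ c : Cf, (mu^[n] (toMu c)).1.1 = none →
    (StateTransition.eval (TM2.step tr) c).Dom := by
  induction n using Nat.strong_induction_on with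
  | _ n ih =>
    rintro ⟨l, v, T⟩ hn
    cases l with
    | none =>
      exact Part.dom_iff_mem.2 ⟨_, StateTransition.mem_eval.2 ⟨Relation.ReflTransGen.refl, rfl⟩⟩
    | some l =>
      obtain ⟨m, hm⟩ := sim (tr l) v T
      have h0 : n ≠ 0 := by
        rintro rfl
        simp [toMu] at hn
      have hr : StateTransition.Reaches (TM2.step tr) (⟨some l, v, T⟩ : Cf)
          (TM2.stepAux (tr l) v T) := Relation.ReflTransGen.single rfl
      rw [StateTransition.reaches_eval hr]
      apply ih (n - (m + 1)) (by omega)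
      rw [← hm, ← iterate_add_apply]
      have : n - (m + 1) + (m + 1) = (m + 1 - n) + n := by omega
      rw [this, iterate_add_apply]
      exact mu_iter_halt _ hn _

theorem nxt_mem {Q : Finset Λ'} {q₀ : Λ'} (hQ : @TM2.Supports _ _ _ _ ⟨q₀⟩ tr Q) (q : Option St)
    (hq : q ∈ TM2.stmts tr Q) (v : Option Γ') (d : ℤ) : (nxt q v d).1 ∈ TM2.stmts tr Q := by
  classical
  rcases q with _ | q
  · exact hq
  · have hs := @TM2.stmts_supportsStmt _ _ _ _ ⟨q₀⟩ _ _ _ hQ hq
    cases q with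
    | push k f q => exact TM2.stmts_trans (by simp [TM2.stmts₁, TM2.stmts₁_self]) hq
    | peek k f q => exact TM2.stmts_trans (by simp [TM2.stmts₁, TM2.stmts₁_self]) hq
    | pop k f q => exact TM2.stmts_trans (by simp [TM2.stmts₁, TM2.stmts₁_self]) hq
    | load a q => exact TM2.stmts_trans (by simp [TM2.stmts₁, TM2.stmts₁_self]) hq
    | branch f q₁ q₂ =>
      simp only [nxt]
      cases f v
      · exact TM2.stmts_trans (by simp [TM2.stmts₁, TM2.stmts₁_self]) hq
      · exact TM2.stmts_trans (by simp [TM2.stmts₁, TM2.stmts₁_self]) hq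
    | goto f =>
      simp only [nxt, TM2.stmts, Finset.some_mem_insertNone, Finset.mem_biUnion]
      exact ⟨f v, hs v, TM2.stmts₁_self⟩
    | halt => simp [nxt, TM2.stmts]

/-- The code of the input. -/
def inp (n : ℕ) : ℕ := enc (trList [n])

theorem inp_rec (n : ℕ) : inp n = if n = 0 then 2 else 3 + n % 2 + 5 * inp (n / 2) := by
  split_ifs with h
  · subst h; simp [inp, enc, dig]
  · have key : ∀ p : PosNum, trNat (p : ℕ) = trPosNum p := by
      intro p
      rw [trNat, PosNum.of_to_nat]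
      rfl
    obtain ⟨p, rfl⟩ : ∃ p : PosNum, (p : ℕ) = n := by
      have h1 : ((n : Num) : ℕ) = n := Num.to_of_nat n
      rcases hn : (n : Num) with _ | p
      · rw [hn] at h1; exact absurd h1.symm h
      · rw [hn] at h1; exact ⟨p, h1⟩
    cases p with
    | one =>
      have : trNat 1 = [Γ'.bit1] := key PosNum.one
      simp [inp, enc, dig, this]
    | bit1 q =>
      have h1 : ((PosNum.bit1 q : PosNum) : ℕ) / 2 = q := by
        rw [PosNum.cast_bit1]; omega
      have h2 : ((PosNum.bit1 q : PosNum) : ℕ) % 2 = 1 := by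
        rw [PosNum.cast_bit1]; omega
      rw [h1, h2]
      simp only [inp, trList, key, trPosNum, List.cons_append, enc, dig]
    | bit0 q =>
      have h1 : ((PosNum.bit0 q : PosNum) : ℕ) / 2 = q := by
        rw [PosNum.cast_bit0]; omega
      have h2 : ((PosNum.bit0 q : PosNum) : ℕ) % 2 = 0 := by
        rw [PosNum.cast_bit0]; omega
      rw [h1, h2]
      simp only [inp, trList, key, trPosNum, List.cons_append, enc, dig]

theorem inp_primrec : Primrec inp := by
  have h : Primrec₂ (fun (_ : Unit) (n : ℕ) => inp n) := by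
    refine Primrec.nat_strong_rec _ (g := fun _ l => some (if l.length = 0 then 2 else
      3 + l.length % 2 + 5 * l.getD (l.length / 2) 0)) ?_ ?_
    · have hl : Primrec (fun p : Unit × List ℕ => p.2.length) :=
        Primrec.list_length.comp Primrec.snd
      refine Primrec.option_some.comp (Primrec.ite (Primrec.eq.comp hl (Primrec.const 0))
        (Primrec.const 2) (Primrec.nat_add.comp (Primrec.nat_add.comp (Primrec.const 3)
          (Primrec.nat_mod.comp hl (Primrec.const 2))) (Primrec.nat_mul.comp (Primrec.const 5)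
            ((Primrec.list_getD 0).comp Primrec.snd (Primrec.nat_div.comp hl (Primrec.const 2))))))
    · intro _ n
      rw [inp_rec n]
      simp only [List.length_map, List.length_range]
      split_ifs with h
      · rfl
      · have : n / 2 < n := by omega
        simp [List.getD_eq_getElem?_getD, this]
  exact h.comp (Primrec.const ()) Primrec.id

/-- **Novikov-Boone theorem**: some finite presentation has unsolvable word problem. -/
theorem novikov_boone : ∃ (m l : ℕ) (ρ : Fin l → FreeGroup (Fin m)), Unsolv (Set.range ρ) := by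
  classical
  have hpart : Partrec (fun n : ℕ => (Denumerable.ofNat Nat.Partrec.Code n).eval 0) :=
    Nat.Partrec.Code.eval_part.comp (Computable.ofNat _) (Computable.const 0)
  obtain ⟨c, hc⟩ := ToPartrec.Code.exists_code (Nat.Partrec'.part_iff₁.2 hpart)
  have hc' : ∀ n : ℕ, c.eval [n] = pure <$> (Denumerable.ofNat Nat.Partrec.Code n).eval 0 :=
    fun n => hc ⟨[n], rfl⟩
  have hQ := tr_supports c Cont'.halt
  set Q := codeSupp c Cont'.halt with hQdef
  let S : Type := {q : Option St // q ∈ TM2.stmts tr Q} × Option Γ'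
  let h : S := (⟨none, by simp [TM2.stmts]⟩, none)
  let s₀ : S := (⟨some (tr (trNormal c Cont'.halt)), by
    simp only [TM2.stmts, Finset.some_mem_insertNone, Finset.mem_biUnion]
    exact ⟨_, hQ.1, TM2.stmts₁_self⟩⟩, none)
  let nx : S → ℤ → S := fun s d =>
    (⟨(nxt s.1.1 s.2 d).1, nxt_mem hQ _ s.1.2 _ _⟩, (nxt s.1.1 s.2 d).2)
  let ru : (S × Fin 5) ⊕ K' → Rule S K' := fun i =>
    match i with
    | Sum.inl (s, d) => ⟨s, nx s (d : ℕ), kOf s.1.1, 5, bOf s.1.1, (d : ℕ), eOf s.1.1 s.2 (d : ℕ),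
        by decide, bOf_ne _⟩
    | Sum.inr k => ⟨h, h, k, 1, 1, 0, 1, one_ne_zero, one_ne_zero⟩
  let co : S × (K' → ℤ) → MS × (K' → ℤ) := fun a => ((a.1.1.1, a.1.2), a.2)
  have co_inj : Function.Injective co := by
    rintro ⟨⟨⟨q, hq⟩, v⟩, z⟩ ⟨⟨⟨q', hq'⟩, v'⟩, z'⟩ hh
    simp only [co, Prod.mk.injEq] at hh
    obtain ⟨⟨rfl, rfl⟩, rfl⟩ := hh
    rfl
  -- every step of the numerical machine is a rule
  have step : ∀ a : S × (K' → ℤ), ∃ b, Rel ru a b ∧ co b = mu (co a) := by
    rintro ⟨s, z⟩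
    have h0 : 0 ≤ z (kOf s.1.1) % 5 := Int.emod_nonneg _ (by decide)
    have h5 : z (kOf s.1.1) % 5 < 5 := Int.emod_lt_of_pos _ (by decide)
    let d : Fin 5 := ⟨(z (kOf s.1.1) % 5).toNat, by omega⟩
    have hd : ((d : ℕ) : ℤ) = z (kOf s.1.1) % 5 := by simp only [d]; omega
    refine ⟨_, ⟨Sum.inl (s, d), z (kOf s.1.1) / 5, z, ?_, rfl⟩, ?_⟩
    · simp only [ru, hd, update_id]
    · simp only [ru, co, nx, mu, hd]
  have steps : ∀ (n : ℕ) (a : S × (K' → ℤ)), ∃ b, Relation.EqvGen (Rel ru) a b ∧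
      co b = mu^[n] (co a) := by
    intro n
    induction n with
    | zero => exact fun a => ⟨a, Relation.EqvGen.refl _, rfl⟩
    | succ n ih =>
      intro a
      obtain ⟨b, hb1, hb2⟩ := ih a
      obtain ⟨b', hb1', hb2'⟩ := step b
      exact ⟨b', hb1.trans _ _ _ (Relation.EqvGen.rel _ _ hb1'), by
        rw [iterate_succ_apply', ← hb2, hb2']⟩
  have shift : ∀ (k : K') (n : ℕ) (z : K' → ℤ),
      Relation.EqvGen (Rel ru) (h, update z k n) (h, update z k 0) := by
    intro k n z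
    induction n with
    | zero => exact Relation.EqvGen.refl _
    | succ n ih =>
      refine Relation.EqvGen.trans _ _ _ (Relation.EqvGen.symm _ _ (Relation.EqvGen.rel _ _
        ⟨Sum.inr k, n, z, ?_, ?_⟩)) ih
      · simp [ru]
      · simp [ru, add_comm]
  have inv : ∀ a b, Relation.EqvGen (Rel ru) a b → (Good (co a) ↔ Good (co b)) := by
    intro a b hab
    induction hab with
    | rel a b hab =>
      obtain ⟨i, w, z, rfl, rfl⟩ := hab
      rcases i with ⟨s, d⟩ | k
      · rw [← good_mu]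
        have hd := d.2
        have e1 : (((d : ℕ) : ℤ) + 5 * w) % 5 = (d : ℕ) := by omega
        have e2 : (((d : ℕ) : ℤ) + 5 * w) / 5 = w := by omega
        simp only [ru, co, nx, mu, update_self, update_idem, e1, e2]
      · exact ⟨fun _ => ⟨0, rfl⟩, fun _ => ⟨0, rfl⟩⟩
    | refl => rfl
    | symm _ _ _ ih => exact ih.symm
    | trans _ _ _ _ _ ih1 ih2 => exact ih1.trans ih2
  have henc : ∀ l : List Γ', encS (K'.elim l [] [] []) = Pi.single K'.main (enc l : ℤ) := by
    intro l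
    funext k
    cases k <;> simp [encS, enc]
  have hinit : ∀ n : ℕ, co (s₀, Pi.single K'.main (inp n : ℤ)) = toMu (init c [n]) := by
    intro n
    simp only [co, s₀, toMu, init, henc, inp, Option.map_some]
  refine boone ru h s₀ K'.main inp inp_primrec.to_comp (fun hcomp => ?_)
  apply ComputablePred.halting_problem 0
  refine ComputablePred.computable_of_manyOneReducible
    ⟨fun c' => Encodable.encode c', Computable.encode, fun c' => ?_⟩ hcomp
  have hev := tr_eval c [Encodable.encode c']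
  rw [hc', Denumerable.ofNat_encode] at hev
  constructor
  · intro hd
    have hmem : halt [(c'.eval 0).get hd] ∈
        StateTransition.eval (TM2.step tr) (init c [Encodable.encode c']) := by
      rw [hev]
      exact Part.mem_map _ (Part.mem_map _ (Part.get_mem hd))
    obtain ⟨n, hn⟩ := reaches_mu (StateTransition.mem_eval.1 hmem).1
    obtain ⟨b, hb1, hb2⟩ := steps n (s₀, Pi.single K'.main (inp (Encodable.encode c') : ℤ))
    rw [hinit, hn] at hb2
    have : b = (h, update (0 : K' → ℤ) K'.main (enc (trList [(c'.eval 0).get hd]) : ℕ)) := by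
      apply co_inj
      rw [hb2]
      simp only [co, h, toMu, halt, henc, Option.map_none]
      rfl
    rw [this] at hb1
    have h2 := shift K'.main (enc (trList [(c'.eval 0).get hd])) 0
    rw [show update (0 : K' → ℤ) K'.main 0 = 0 from by simp] at h2
    exact hb1.trans _ _ _ h2
  · intro he
    obtain ⟨n, hn⟩ := (inv _ _ he).2 ⟨0, rfl⟩
    rw [hinit] at hn
    have := dom_of_good n _ hn
    rw [hev] at this
    exact this

end Pool.Agent.Work.MP_f66739_al
end

-- merged part: Pool.Agent.Work.MP_f66739_al.H66Two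
section
set_option autoImplicit false

namespace Pool.Agent.Work.MP_f66739_al

open Subgroup Function

/-- A two-generator two-relator group with unsolvable word problem. -/
theorem two : ∃ r₁ r₂ : FreeGroup (Fin 2), Unsolv ({r₁, r₂} : Set (FreeGroup (Fin 2))) := by
  obtain ⟨m, k, ρ, hρ⟩ := novikov_boone
  obtain ⟨G', _, s, t, z, ι, hι, hι'⟩ :=
    exists_brunnian (fun j : Fin m => (PresentedGroup.of j : PresentedGroup (Set.range ρ)))
  have hev : ∀ w, ev s t z w = ι (PresentedGroup.mk (Set.range ρ) w) := by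
    intro w
    have : (ev s t z : FreeGroup (Fin m) →* G') = ι.comp (PresentedGroup.mk (Set.range ρ)) := by
      ext j
      simp only [ev, FreeGroup.lift_apply_of, hι, MonoidHom.comp_apply]
      rfl
    rw [this]; rfl
  obtain ⟨H, _, l, β, X, Y, Z, hl, hb, hlab⟩ := exists_label s t z
  have hdet : ∀ w : FreeGroup (Fin m), FreeGroup.lift ![l⁻¹, lq l β] (ev X Y Z w) = 1 ↔
      w ∈ normalClosure (Set.range ρ) := by
    intro w
    rw [hlab, hev, mem_normalClosure_iff]
    exact ⟨fun h => hι' _ (by rw [h]; exact Commute.one_left _), fun h => by rw [h, map_one]⟩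
  let r : Fin k → FreeGroup (Fin 2) := fun c => ev X Y Z (ρ c)
  let a : FreeGroup (Fin 2) := FreeGroup.of 0
  let y : FreeGroup (Fin 2) := FreeGroup.of 1
  refine ⟨cm a (fE a y), relR a y (info r (es (fE a y) (gE a y))), ?_⟩
  let T : FreeGroup (Fin 2) →* FreeGroup (Fin 2) := part (ep (fE a y) (gE a y)) 0
  let e : FreeGroup (Fin 2) := ep (fE a y) (gE a y) 1 * (ep (fE a y) (gE a y) 2)⁻¹
  have hfam : CompFam (fun w : List (Fin m × Bool) => cm (T (ev X Y Z (FreeGroup.mk w))) e) := by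
    have h1 : CompFam (fun w : List (Fin m × Bool) => T (ev X Y Z (FreeGroup.mk w))) := by
      simp only [map_ev]
      exact CompFam.lift _
    exact ((h1.inv.mul (CompFam.const _)).mul h1).mul (CompFam.const _)
  refine Unsolv.of_fam hρ _ hfam (fun w => ⟨fun hw => ?_, fun hw => ?_⟩)
  · rw [mem_normalClosure_iff]
    set R : Set (FreeGroup (Fin 2)) := {cm a (fE a y), relR a y (info r (es (fE a y) (gE a y)))}
      with hR
    let π := PresentedGroup.mk R
    have e1 : π (cm a (fE a y)) = 1 :=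
      (mem_normalClosure_iff _ _).1 (subset_normalClosure (by simp [hR]))
    have e2 : π (relR a y (info r (es (fE a y) (gE a y)))) = 1 :=
      (mem_normalClosure_iff _ _).1 (subset_normalClosure (by simp [hR]))
    rw [map_cm, map_fE, cm_eq_one] at e1
    simp only [map_relR, map_info, map_es, map_fE, map_gE] at e2
    have hw' : ev X Y Z (FreeGroup.mk w) ∈ normalClosure (Set.range r) := by
      have : normalClosure (Set.range ρ) ≤ (normalClosure (Set.range r)).comap (ev X Y Z) := by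
        apply normalClosure_le_normal
        rintro _ ⟨c, rfl⟩
        exact subset_normalClosure ⟨c, rfl⟩
      exact this hw
    have := derive2 r e1 e2 hw'
    change π _ = 1
    simp only [T, e, map_cm, cm_eq_one, map_part, map_mul, map_inv, map_ep, map_fE, map_gE]
    exact this
  · obtain ⟨E, _, a', y', r1, r2, hE⟩ := model_main hl hb r (fun c => ev_mem_commutator _ _ _ _)
      (fun c => (hdet _).2 (subset_normalClosure ⟨c, rfl⟩))
    let φ : FreeGroup (Fin 2) →* E := FreeGroup.lift ![a', y']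
    have ha : φ a = a' := by simp [φ, a]
    have hy : φ y = y' := by simp [φ, y]
    have := map_eq_one_of_mem φ (by
      intro x hx
      simp only [Set.mem_insert_iff, Set.mem_singleton_iff] at hx
      rcases hx with rfl | rfl
      · rw [map_cm, map_fE, ha, hy, cm_eq_one]; exact r1
      · simp only [map_relR, map_info, map_es, map_fE, map_gE, ha, hy]
        exact r2) hw
    simp only [T, e, map_cm, cm_eq_one, map_part, map_mul, map_inv, map_ep, map_fE, map_gE,
      ha, hy] at this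
    exact (hdet _).1 (hE _ (ev_mem_commutator _ _ _ _) this)

end Pool.Agent.Work.MP_f66739_al
end
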