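import Pool.Agent.Work.MP_f66739_al.Machine
import Pool.Agent.Work.MP_f66739_al.Four

set_option autoImplicit false

namespace Pool.Agent.Work.MP_f66739_al

open Subgroup Function

theorem exists_primroot (l : ℕ) : ∃ p g : ℕ, 10 ≤ p ∧ l < p ∧ Nat.Coprime g (p ^ 2) ∧
    ∀ i : ℤ, ¬ (p : ℤ) ∣ i → ∃ j : ℕ, ((p : ℤ) ^ 2) ∣ (g : ℤ) ^ j - i := by
  obtain ⟨p, hp1, hp⟩ := Nat.exists_infinite_primes (l + 10)
  have : NeZero (p ^ 2) := ⟨pow_ne_zero _ hp.ne_zero⟩
  have hc := ZMod.isCyclic_units_of_prime_pow p hp (by omega) 2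
  obtain ⟨γ, hγ⟩ := IsCyclic.exists_monoid_generator (α := (ZMod (p ^ 2))ˣ)
  refine ⟨p, (γ : ZMod (p ^ 2)).val, by omega, by omega, ZMod.val_coe_unit_coprime γ, ?_⟩
  intro i hi
  have hu : IsUnit ((i : ℤ) : ZMod (p ^ 2)) := by
    rw [ZMod.coe_int_isUnit_iff_isCoprime]
    push_cast
    apply IsCoprime.pow_left
    exact ((Nat.prime_iff_prime_int.1 hp).irreducible.coprime_iff_not_dvd).2 hi
  obtain ⟨u, hu⟩ := hu
  obtain ⟨j, hj⟩ := hγ u
  refine ⟨j, ?_⟩
  have h1 : ((i : ℤ) : ZMod (p ^ 2)) =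
      (((((γ : ZMod (p ^ 2)).val : ℕ) : ℤ) ^ j : ℤ) : ZMod (p ^ 2)) := by
    rw [← hu, ← hj]
    simp
  rw [ZMod.intCast_eq_intCast_iff_dvd_sub] at h1
  exact_mod_cast h1

theorem two_primroot (i : ℤ) (hi : ¬ ((11 : ℕ) : ℤ) ∣ i) :
    ∃ j : ℕ, (((11 : ℕ) : ℤ) ^ 2) ∣ ((2 : ℕ) : ℤ) ^ j - i := by
  have key : ∀ r : Fin 121, r.val % 11 ≠ 0 → ∃ j : Fin 110, 2 ^ j.val % 121 = r.val := by
    decide +kernel
  have h0 : 0 ≤ i % 121 := Int.emod_nonneg _ (by decide)
  have h1 : i % 121 < 121 := Int.emod_lt_of_pos _ (by decide)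
  obtain ⟨j, hj⟩ := key ⟨(i % 121).toNat, by omega⟩ (by
    simp only
    omega)
  refine ⟨j, ?_⟩
  simp only at hj
  have h2 : ((2 : ℕ) : ℤ) ^ j.val = ((2 ^ j.val : ℕ) : ℤ) := by push_cast; rfl
  rw [h2]
  generalize 2 ^ j.val = N at hj
  omega

/-- A two-generator three-relator group with unsolvable word problem. -/
theorem three : ∃ r₁ r₂ r₃ : FreeGroup (Fin 2),
    Unsolv ({r₁, r₂, r₃} : Set (FreeGroup (Fin 2))) := by
  obtain ⟨m, l, ρ, hρ⟩ := novikov_boone
  obtain ⟨p, g, hp, hl, hgp, hg⟩ := exists_primroot l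
  obtain ⟨v₀, hv₀⟩ := four hp hgp hg hl ρ hρ
  obtain ⟨v, hv⟩ := four (p := 11) (g := 2) (by decide) (by decide) two_primroot (by decide) _ hv₀
  let b : FreeGroup (Fin 2) := FreeGroup.of 0
  let k : FreeGroup (Fin 2) := FreeGroup.of 1
  let a : FreeGroup (Fin 3) := FreeGroup.of 0
  let y : FreeGroup (Fin 3) := FreeGroup.of 1
  let h : FreeGroup (Fin 3) := FreeGroup.of 2
  let x₁ : FreeGroup (Fin 2) := k⁻¹ * b * k
  let σ : FreeGroup (Fin 3) →* FreeGroup (Fin 2) := FreeGroup.lift ![b * x₁⁻¹ * b, b⁻¹ * x₁, k]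
  let τ : FreeGroup (Fin 2) →* FreeGroup (Fin 3) := FreeGroup.lift ![a * y, h]
  have σa : σ a = b * x₁⁻¹ * b := by simp [σ, a]
  have σy : σ y = b⁻¹ * x₁ := by simp [σ, y]
  have σh : σ h = k := by simp [σ, h]
  have τb : τ b = a * y := by simp [τ, b]
  have τk : τ k = h := by simp [τ, k]
  let r₁ : FreeGroup (Fin 2) := k⁻¹ * x₁ * k * (x₁ * (b⁻¹ * x₁) ^ 2)⁻¹
  refine ⟨r₁, σ (rel4 11 2 v 2), σ (rel4 11 2 v 3), ?_⟩
  refine Unsolv.of_fam hv _ (CompFam.lift _ : CompFam (fun w => σ (FreeGroup.mk w)))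
    (fun w => ⟨fun hw => ?_, fun hw => ?_⟩)
  · rw [mem_normalClosure_iff]
    set R : Set (FreeGroup (Fin 2)) := {r₁, σ (rel4 11 2 v 2), σ (rel4 11 2 v 3)} with hR
    let π := PresentedGroup.mk R
    have e1 : π r₁ = 1 := (mem_normalClosure_iff _ _).1 (subset_normalClosure (by simp [hR]))
    have e1' : (π k)⁻¹ * π x₁ * π k = π x₁ * ((π b)⁻¹ * π x₁) ^ 2 := by
      simpa only [r₁, map_mul, map_inv, map_pow, mul_inv_eq_one] using e1
    have e0 : π x₁ = (π k)⁻¹ * π b * π k := by simp only [x₁, map_mul, map_inv]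
    refine map_eq_one_of_mem (π.comp σ) ?_ hw
    rintro _ ⟨i, rfl⟩
    fin_cases i
    · change π (σ (h⁻¹ * y * h * (y ^ 2)⁻¹)) = 1
      simp only [map_mul, map_inv, map_pow, σy, σh, mul_inv_eq_one]
      calc (π k)⁻¹ * ((π b)⁻¹ * π x₁) * π k
          = ((π k)⁻¹ * π b * π k)⁻¹ * ((π k)⁻¹ * π x₁ * π k) := by group
        _ = _ := by rw [e1', ← e0]; group
    · change π (σ (cm a h)) = 1
      rw [map_cm, map_cm, cm_eq_one, σa, σh, commute_iff_eq, ← inv_mul_eq_iff_eq_mul]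
      simp only [map_mul, map_inv]
      calc (π k)⁻¹ * (π b * (π x₁)⁻¹ * π b * π k)
          = ((π k)⁻¹ * π b * π k) * ((π k)⁻¹ * π x₁ * π k)⁻¹ * ((π k)⁻¹ * π b * π k) := by group
        _ = _ := by rw [e1', ← e0, pow_two]; group
    · exact (mem_normalClosure_iff _ _).1 (subset_normalClosure (by simp [hR]))
    · exact (mem_normalClosure_iff _ _).1 (subset_normalClosure (by simp [hR]))
  · rw [mem_normalClosure_iff]
    set R := Set.range (rel4 11 2 v) with hR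
    let π := PresentedGroup.mk R
    have hr : ∀ i, π (rel4 11 2 v i) = 1 :=
      fun i => (mem_normalClosure_iff _ _).1 (subset_normalClosure ⟨i, rfl⟩)
    have r0 : (π h)⁻¹ * π y * π h = π y ^ 2 := by
      have := hr 0
      change π (h⁻¹ * y * h * (y ^ 2)⁻¹) = 1 at this
      simpa only [map_mul, map_inv, map_pow, mul_inv_eq_one] using this
    have r1 : (π h)⁻¹ * π a * π h = π a := by
      have := hr 1
      change π (cm a h) = 1 at this
      rw [map_cm, cm_eq_one] at this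
      rw [mul_assoc, this.eq]; group
    have τx : π (τ x₁) = π a * π y ^ 2 := by
      simp only [x₁, map_mul, map_inv, τb, τk]
      rw [← r0]
      conv_rhs => rw [← r1]
      group
    have hid : (π.comp τ).comp σ = π := by
      ext i
      fin_cases i
      · change π (τ (σ a)) = π a
        simp only [σa, map_mul, map_inv, τx, τb]
        group
      · change π (τ (σ y)) = π y
        simp only [σy, map_mul, map_inv, τx, τb]
        group
      · change π (τ (σ h)) = π h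
        rw [σh, τk]
    have hid' : ∀ u, π (τ (σ u)) = π u := fun u => DFunLike.congr_fun hid u
    rw [← hid']
    refine map_eq_one_of_mem (π.comp τ) ?_ hw
    intro r hr'
    simp only [Set.mem_insert_iff, Set.mem_singleton_iff] at hr'
    rcases hr' with h1 | h1 | h1 <;> rw [h1]
    · change π (τ (k⁻¹ * x₁ * k * (x₁ * (b⁻¹ * x₁) ^ 2)⁻¹)) = 1
      simp only [map_mul, map_inv, map_pow, τx, τb, τk, mul_inv_eq_one]
      calc (π h)⁻¹ * (π a * π y ^ 2) * π h
          = ((π h)⁻¹ * π a * π h) * ((π h)⁻¹ * π y * π h) * ((π h)⁻¹ * π y * π h) := by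
            rw [pow_two]; group
        _ = _ := by rw [r0, r1]; group
    · exact (hid' _).trans (hr 2)
    · exact (hid' _).trans (hr 3)

end Pool.Agent.Work.MP_f66739_al
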